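import Mathlib

/-!
SMOOTHED FATOU (MP_8f2e1c_an), common definitions in homogeneous coordinates.

`CV d`: pairs of coefficient vectors (coefficient of `z^k`), `BN` the Bombieri norm. Points of the sphere are unit
vectors of `ℂ × ℂ` up to phase (`IsU`); `wd u v = u ∧ v`, for unit vectors `‖wd u v‖` is the chordal distance.
`FF X u`: homogeneous evaluation, `JJ X u`: Jacobian determinant, `nx X u = F(u)/|F(u)|`,
`aa X u = J(u)/(d |F(u)|^2)`, whose norm is the spherical derivative of the map at `u`.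
For a critical point `c`: `ob X c l` is the orbit of the critical value (`ob X c 0 = nx X c`), `al X c l = aa` at it,
`Ph X c k` = product of the `‖al‖` for `l < k` (phase derivative), `SS` = sum of the `1/Ph`,
`Lm K X c k = 1 + K ∑_{l<k} Ph l / ‖al l‖` (inverse of the radius of linearity).
`Nd e u = (e ∧ u) e`: nilpotent maps; `Tt e t X = X + t N_e X`; `om e X c k`: derivative of the orbit point `k` in
the direction `N_e` (its norm is the spherical norm). `e3`: the directions `(1,0)`, `(0,1)`, `(1,1)`.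
-/

set_option autoImplicit false

open Finset

namespace Pool.H70.SF

/-- pairs of coefficient vectors -/
abbrev CV (d : ℕ) : Type := (Fin (d + 1) → ℂ) × (Fin (d + 1) → ℂ)

/-- squared Bombieri norm -/
noncomputable def BN2 {d : ℕ} (X : CV d) : ℝ :=
  ∑ k : Fin (d + 1), (‖X.1 k‖ ^ 2 + ‖X.2 k‖ ^ 2) / (d.choose k : ℝ)

/-- squared euclidean norm -/
noncomputable def n2 (u : ℂ × ℂ) : ℝ := ‖u.1‖ ^ 2 + ‖u.2‖ ^ 2

/-- unit vector -/
def IsU (u : ℂ × ℂ) : Prop := n2 u = 1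

/-- wedge -/
def wd (u v : ℂ × ℂ) : ℂ := u.1 * v.2 - u.2 * v.1

/-- homogeneous evaluation -/
noncomputable def hev {d : ℕ} (p : Fin (d + 1) → ℂ) (u : ℂ × ℂ) : ℂ :=
  ∑ k : Fin (d + 1), p k * u.1 ^ (k : ℕ) * u.2 ^ (d - k)

/-- its derivative in the first variable -/
noncomputable def hev1 {d : ℕ} (p : Fin (d + 1) → ℂ) (u : ℂ × ℂ) : ℂ :=
  ∑ k : Fin (d + 1), p k * ((k : ℕ) * u.1 ^ ((k : ℕ) - 1)) * u.2 ^ (d - k)

/-- its derivative in the second variable -/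
noncomputable def hev2 {d : ℕ} (p : Fin (d + 1) → ℂ) (u : ℂ × ℂ) : ℂ :=
  ∑ k : Fin (d + 1), p k * u.1 ^ (k : ℕ) * (((d - k : ℕ) : ℂ) * u.2 ^ (d - k - 1))

/-- the homogeneous map -/
noncomputable def FF {d : ℕ} (X : CV d) (u : ℂ × ℂ) : ℂ × ℂ := (hev X.1 u, hev X.2 u)

/-- the Jacobian determinant -/
noncomputable def JJ {d : ℕ} (X : CV d) (u : ℂ × ℂ) : ℂ :=
  hev1 X.1 u * hev2 X.2 u - hev2 X.1 u * hev1 X.2 u

/-- complex spherical derivative at a unit vector -/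
noncomputable def aa {d : ℕ} (X : CV d) (u : ℂ × ℂ) : ℂ := JJ X u / ((d : ℂ) * (n2 (FF X u) : ℂ))

/-- the map on unit vectors -/
noncomputable def nx {d : ℕ} (X : CV d) (u : ℂ × ℂ) : ℂ × ℂ :=
  (((Real.sqrt (n2 (FF X u)))⁻¹ : ℝ) : ℂ) • FF X u

/-- orbit of the value at `c` -/
noncomputable def ob {d : ℕ} (X : CV d) (c : ℂ × ℂ) : ℕ → ℂ × ℂ
  | 0 => nx X c
  | l + 1 => nx X (ob X c l)

/-- multipliers along the orbit -/
noncomputable def al {d : ℕ} (X : CV d) (c : ℂ × ℂ) (l : ℕ) : ℂ := aa X (ob X c l)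

/-- phase derivative -/
noncomputable def Ph {d : ℕ} (X : CV d) (c : ℂ × ℂ) (k : ℕ) : ℝ := ∏ l ∈ range k, ‖al X c l‖

/-- sum of the inverses of the derivatives -/
noncomputable def SS {d : ℕ} (X : CV d) (c : ℂ × ℂ) (k : ℕ) : ℝ :=
  ∑ l ∈ range (k + 1), (Ph X c l)⁻¹

/-- inverse of the radius of linearity -/
noncomputable def Lm {d : ℕ} (K : ℝ) (X : CV d) (c : ℂ × ℂ) (k : ℕ) : ℝ :=
  1 + K * ∑ l ∈ range k, Ph X c l / ‖al X c l‖

/-- the nilpotent map `u ↦ (e ∧ u) e` -/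
def Nd (e u : ℂ × ℂ) : ℂ × ℂ := wd e u • e

/-- the same on coefficients -/
def NX {d : ℕ} (e : ℂ × ℂ) (X : CV d) : CV d :=
  (e.1 • (e.1 • X.2 - e.2 • X.1), e.2 • (e.1 • X.2 - e.2 • X.1))

/-- the one parameter group -/
def Tt {d : ℕ} (e : ℂ × ℂ) (t : ℂ) (X : CV d) : CV d := X + t • NX e X

/-- parameter derivative of the orbit (a complex number, the norm is the spherical norm) -/
noncomputable def om {d : ℕ} (e : ℂ × ℂ) (X : CV d) (c : ℂ × ℂ) : ℕ → ℂ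
  | 0 => wd (ob X c 0) (Nd e (ob X c 0))
  | k + 1 => al X c k * om e X c k + wd (ob X c (k + 1)) (Nd e (ob X c (k + 1)))

/-- the three directions of the measure step -/
def e3 : Fin 3 → ℂ × ℂ
  | 0 => (1, 0)
  | 1 => (0, 1)
  | 2 => (1, 1)

/-- regular maps: bounded coefficients, no common zero, critical points quantitatively simple -/
structure Rg {d : ℕ} (M : ℝ) (X : CV d) : Prop where
  nrm : BN2 X ≤ M ^ 2
  low : ∀ u, IsU u → (M⁻¹) ^ 2 ≤ n2 (FF X u)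
  up : ∀ u, IsU u → ‖aa X u‖ ≤ M
  crit : ∀ u, IsU u → ∃ c, IsU c ∧ JJ X c = 0 ∧ ‖wd u c‖ ≤ M * ‖aa X u‖

/-- the event of scale `m` in direction `e` -/
structure Ev {d : ℕ} (M K γ η : ℝ) (e : ℂ × ℂ) (m : ℕ) (X : CV d) (c : ℂ × ℂ) (k : ℕ) : Prop where
  unit : IsU c
  crit : JJ X c = 0
  kpos : 1 ≤ k
  low : ∀ l < k, ((2 : ℝ) ^ (m + 1))⁻¹ ≤ ‖al X c l‖
  sum : SS X c k ≤ M
  adm : Ph X c k / M ≤ ‖om e X c k‖
  scl : (2 : ℝ) ^ m ≤ Lm K X c k
  scu : Lm K X c k ≤ (2 : ℝ) ^ (m + 1)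
  size : (Lm K X c k) ^ (1 - η) ≤ Ph X c k
  bad : ‖al X c k‖ ≤ (Lm K X c k) ^ (-γ)

/-- the bad set of scale `m` -/
def Bad {d : ℕ} (M K γ η : ℝ) (e : ℂ × ℂ) (m : ℕ) : Set (CV d) :=
  {X | Rg M X ∧ ∃ (c : ℂ × ℂ) (k : ℕ), Ev M K γ η e m X c k}

end Pool.H70.SF
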