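import Pool.Agent.H70.SF.Def

/-!
Module GA: the Gaussian measure is quasi-invariant under the nilpotent flows.
-/

set_option autoImplicit false

open MeasureTheory Metric Set Finset
open scoped ENNReal

namespace Pool.H70.SF

variable {d : ℕ}

/-! ### The group -/

lemma NX_NX (e : ℂ × ℂ) (X : CV d) : NX e (NX e X) = 0 := by
  unfold NX
  ext k
  · simp only [Pi.smul_apply, Pi.sub_apply, smul_eq_mul, Prod.fst_zero, Pi.zero_apply]
    ring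
  · simp only [Pi.smul_apply, Pi.sub_apply, smul_eq_mul, Prod.snd_zero, Pi.zero_apply]
    ring

lemma NX_add (e : ℂ × ℂ) (X Y : CV d) : NX e (X + Y) = NX e X + NX e Y := by
  unfold NX
  ext k
  · simp only [Pi.smul_apply, Pi.sub_apply, Pi.add_apply, smul_eq_mul, Prod.fst_add, Prod.snd_add]
    ring
  · simp only [Pi.smul_apply, Pi.sub_apply, Pi.add_apply, smul_eq_mul, Prod.fst_add, Prod.snd_add]
    ring

lemma NX_smul (e : ℂ × ℂ) (t : ℂ) (X : CV d) : NX e (t • X) = t • NX e X := by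
  unfold NX
  ext k
  · simp only [Pi.smul_apply, Pi.sub_apply, smul_eq_mul, Prod.smul_fst, Prod.smul_snd]
    ring
  · simp only [Pi.smul_apply, Pi.sub_apply, smul_eq_mul, Prod.smul_fst, Prod.smul_snd]
    ring

lemma Tt_Tt (e : ℂ × ℂ) (s t : ℂ) (X : CV d) : Tt e s (Tt e t X) = Tt e (s + t) X := by
  unfold Tt
  rw [NX_add, NX_smul, NX_NX, smul_zero, add_zero, add_smul]
  abel

lemma Tt_zero (e : ℂ × ℂ) (X : CV d) : Tt e 0 X = X := by
  unfold Tt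
  rw [zero_smul, add_zero]

lemma Tt_meas (e : ℂ × ℂ) : Continuous (fun x : ℂ × CV d => Tt e x.1 x.2) := by
  unfold Tt NX
  fun_prop

lemma Tt_cont (e : ℂ × ℂ) (t : ℂ) : Continuous (Tt e t : CV d → CV d) := by
  unfold Tt NX
  fun_prop

/-! ### Measure preserving shears -/

/-- second shear -/
lemma mp_two (t : ℂ) : MeasurePreserving (fun X : CV d => (X.1, X.2 + t • X.1)) volume volume := by
  have h := MeasurePreserving.skew_product (μa := (volume : Measure (Fin (d + 1) → ℂ)))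
    (μb := (volume : Measure (Fin (d + 1) → ℂ))) (μc := (volume : Measure (Fin (d + 1) → ℂ)))
    (μd := (volume : Measure (Fin (d + 1) → ℂ)))
    (MeasurePreserving.id volume) (g := fun a b => b + t • a) (by fun_prop)
    (Filter.Eventually.of_forall fun a => by
      exact (measurePreserving_add_right volume (t • a)).map_eq)
  exact h

/-- first shear -/
lemma mp_one (t : ℂ) : MeasurePreserving (fun X : CV d => (X.1 + t • X.2, X.2)) volume volume := by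
  have hs : MeasurePreserving (Prod.swap : CV d → CV d) volume volume :=
    Measure.measurePreserving_swap
  have h := (hs.comp (mp_two (d := d) t)).comp hs
  exact h

lemma mp_Tt (e : ℂ × ℂ) (t : ℂ) : MeasurePreserving (Tt e t : CV d → CV d) volume volume := by
  by_cases h1 : e.1 = 0
  · have h := mp_two (d := d) (-(e.2 ^ 2 * t))
    have he : (Tt e t : CV d → CV d) = fun X => (X.1, X.2 + (-(e.2 ^ 2 * t)) • X.1) := by
      funext X
      simp only [Tt, NX, h1]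
      ext k
      · simp
      · simp
        ring
    rw [he]
    exact h
  · have h := ((mp_two (d := d) (e.2 / e.1)).comp (mp_one (d := d) (e.1 ^ 2 * t))).comp
      (mp_two (d := d) (-(e.2 / e.1)))
    have he : (Tt e t : CV d → CV d) =
        ((fun X : CV d => (X.1, X.2 + (e.2 / e.1) • X.1)) ∘
          (fun X : CV d => (X.1 + (e.1 ^ 2 * t) • X.2, X.2))) ∘
            (fun X : CV d => (X.1, X.2 + (-(e.2 / e.1)) • X.1)) := by
      funext X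
      simp only [Tt, NX, Function.comp]
      ext k
      · simp only [Prod.fst_add, Prod.smul_fst, Pi.add_apply, Pi.smul_apply, Pi.sub_apply,
          smul_eq_mul]
        field_simp
        ring
      · simp only [Prod.snd_add, Prod.smul_snd, Pi.add_apply, Pi.smul_apply, Pi.sub_apply,
          smul_eq_mul]
        field_simp
        ring
    rw [he]
    exact h

/-! ### Density -/

/-- Gaussian law with centre `X0`, variance `τ^2`, up to the factor `A` -/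
noncomputable def gau (A : ℝ) (X0 : CV d) (τ : ℝ) : Measure (CV d) :=
  volume.withDensity (fun X => ENNReal.ofReal (A * Real.exp (-(BN2 (X - X0)) / τ ^ 2)))

lemma BN2_nonneg (X : CV d) : 0 ≤ BN2 X := by
  unfold BN2
  positivity

lemma BN2_cont : Continuous (BN2 : CV d → ℝ) := by
  unfold BN2
  fun_prop

/-- `(a+b)^2 ≤ (1+l) a^2 + (1+1/l) b^2` -/
lemma BN2_sub_le (A B : CV d) {l : ℝ} (hl : 0 < l) :
    BN2 (A - B) ≤ (1 + l) * BN2 A + (1 + l⁻¹) * BN2 B := by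
  have key : ∀ x y : ℂ, ‖x - y‖ ^ 2 ≤ (1 + l) * ‖x‖ ^ 2 + (1 + l⁻¹) * ‖y‖ ^ 2 := by
    intro x y
    have h1 : ‖x - y‖ ≤ ‖x‖ + ‖y‖ := norm_sub_le x y
    have h2 : ‖x - y‖ ^ 2 ≤ (‖x‖ + ‖y‖) ^ 2 := by gcongr
    have h3 : 2 * (‖x‖ * ‖y‖) ≤ l * ‖x‖ ^ 2 + l⁻¹ * ‖y‖ ^ 2 := by
      have h4 : 0 ≤ l * (‖x‖ - l⁻¹ * ‖y‖) ^ 2 := by positivity
      have h5 : l * (‖x‖ - l⁻¹ * ‖y‖) ^ 2 = l * ‖x‖ ^ 2 - 2 * (‖x‖ * ‖y‖) + l⁻¹ * ‖y‖ ^ 2 := by
        field_simp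
        ring
      linarith
    nlinarith
  unfold BN2
  rw [Finset.mul_sum, Finset.mul_sum, ← Finset.sum_add_distrib]
  refine Finset.sum_le_sum fun k _ => ?_
  have hc : 0 ≤ (d.choose k : ℝ) := by positivity
  rw [← mul_div_assoc, ← mul_div_assoc, ← add_div]
  refine div_le_div_of_nonneg_right ?_ hc
  have h1 := key (A.1 k) (B.1 k)
  have h2 := key (A.2 k) (B.2 k)
  simp only [Prod.fst_sub, Prod.snd_sub, Pi.sub_apply]
  nlinarith

lemma BN2_NX (e : ℂ × ℂ) (he : n2 e ≤ 2) (X : CV d) : BN2 (NX e X) ≤ 4 * BN2 X := by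
  unfold BN2
  rw [Finset.mul_sum]
  refine Finset.sum_le_sum fun k _ => ?_
  have hc : 0 ≤ (d.choose k : ℝ) := by positivity
  rw [← mul_div_assoc]
  refine div_le_div_of_nonneg_right ?_ hc
  have h1 : ‖e.1 * X.2 k - e.2 * X.1 k‖ ^ 2 ≤ n2 e * (‖X.1 k‖ ^ 2 + ‖X.2 k‖ ^ 2) := by
    have h1 : ‖e.1 * X.2 k - e.2 * X.1 k‖ ≤ ‖e.1‖ * ‖X.2 k‖ + ‖e.2‖ * ‖X.1 k‖ := by
      refine (norm_sub_le _ _).trans ?_
      rw [norm_mul, norm_mul]
    have h2 : ‖e.1 * X.2 k - e.2 * X.1 k‖ ^ 2 ≤ (‖e.1‖ * ‖X.2 k‖ + ‖e.2‖ * ‖X.1 k‖) ^ 2 := by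
      gcongr
    unfold n2
    nlinarith [sq_nonneg (‖e.1‖ * ‖X.1 k‖ - ‖e.2‖ * ‖X.2 k‖)]
  have h2 : ‖e.1 • (e.1 • X.2 - e.2 • X.1) k‖ ^ 2 + ‖e.2 • (e.1 • X.2 - e.2 • X.1) k‖ ^ 2 =
      n2 e * ‖e.1 * X.2 k - e.2 * X.1 k‖ ^ 2 := by
    unfold n2
    simp only [Pi.sub_apply, Pi.smul_apply, smul_eq_mul, norm_mul]
    ring
  have h3 : ‖(NX e X).1 k‖ ^ 2 + ‖(NX e X).2 k‖ ^ 2 = n2 e * ‖e.1 * X.2 k - e.2 * X.1 k‖ ^ 2 := h2
  rw [h3]
  have h0 : 0 ≤ n2 e := by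
    unfold n2
    positivity
  have h4 : 0 ≤ ‖X.1 k‖ ^ 2 + ‖X.2 k‖ ^ 2 := by positivity
  calc n2 e * ‖e.1 * X.2 k - e.2 * X.1 k‖ ^ 2
      ≤ n2 e * (n2 e * (‖X.1 k‖ ^ 2 + ‖X.2 k‖ ^ 2)) := by gcongr
    _ ≤ 2 * (2 * (‖X.1 k‖ ^ 2 + ‖X.2 k‖ ^ 2)) := by gcongr
    _ = 4 * (‖X.1 k‖ ^ 2 + ‖X.2 k‖ ^ 2) := by ring

lemma BN2_smul (t : ℂ) (X : CV d) : BN2 (t • X) = ‖t‖ ^ 2 * BN2 X := by
  unfold BN2
  rw [Finset.mul_sum]
  refine Finset.sum_congr rfl fun k _ => ?_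
  simp only [Prod.smul_fst, Prod.smul_snd, Pi.smul_apply, smul_eq_mul, norm_mul]
  ring

/-- comparison of the densities -/
lemma dens_le (e : ℂ × ℂ) (he : n2 e ≤ 2) {A : ℝ} (hA : 0 ≤ A) {X0 Y : CV d} {τ R : ℝ} (hτ : 0 < τ) (hτR : τ ≤ R)
    (h0 : BN2 X0 ≤ R ^ 2) (hY : BN2 Y ≤ R ^ 2) {t : ℂ} (ht : ‖t‖ ≤ τ ^ 2 / (40 * R ^ 2)) :
    A * Real.exp (-(BN2 (Y - X0)) / τ ^ 2) ≤
      2 * (A * Real.exp (-(BN2 (Tt e (-t) Y - X0)) / τ ^ 2)) := by
  have hR : 0 < R := hτ.trans_le hτR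
  set D := BN2 (Y - X0) with hD
  have hD4 : D ≤ 4 * R ^ 2 := by
    have h := BN2_sub_le Y X0 (l := 1) one_pos
    norm_num at h
    linarith
  have hD0 : 0 ≤ D := BN2_nonneg _
  set B : CV d := t • NX e Y with hB
  have hBn : BN2 B ≤ (τ ^ 2 / (40 * R ^ 2)) ^ 2 * (4 * R ^ 2) := by
    rw [hB, BN2_smul]
    have h1 := BN2_NX e he Y
    have h2 : ‖t‖ ^ 2 ≤ (τ ^ 2 / (40 * R ^ 2)) ^ 2 := by gcongr
    have h3 : BN2 (NX e Y) ≤ 4 * R ^ 2 := by linarith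
    exact mul_le_mul h2 h3 (BN2_nonneg _) (by positivity)
  have heq : Tt e (-t) Y - X0 = (Y - X0) - B := by
    rw [hB]
    unfold Tt
    rw [neg_smul]
    abel
  have hl : 0 < τ ^ 2 / (16 * R ^ 2) := by positivity
  have hmain := BN2_sub_le (Y - X0) B hl
  rw [← heq, ← hD] at hmain
  have hinv : 1 + (τ ^ 2 / (16 * R ^ 2))⁻¹ ≤ 17 * R ^ 2 / τ ^ 2 := by
    rw [inv_div]
    have : 1 ≤ R ^ 2 / τ ^ 2 := by
      rw [le_div_iff₀ (by positivity)]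
      nlinarith
    have h2 : 17 * R ^ 2 / τ ^ 2 = R ^ 2 / τ ^ 2 + 16 * R ^ 2 / τ ^ 2 := by ring
    rw [h2]
    linarith
  have h5 : (1 + (τ ^ 2 / (16 * R ^ 2))⁻¹) * BN2 B ≤ τ ^ 2 / 8 := by
    calc (1 + (τ ^ 2 / (16 * R ^ 2))⁻¹) * BN2 B
        ≤ 17 * R ^ 2 / τ ^ 2 * ((τ ^ 2 / (40 * R ^ 2)) ^ 2 * (4 * R ^ 2)) := by
          refine mul_le_mul hinv hBn (BN2_nonneg _) (by positivity)
      _ = 68 / 1600 * τ ^ 2 := by
          field_simp
          ring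
      _ ≤ τ ^ 2 / 8 := by nlinarith [sq_nonneg τ]
  have h6 : τ ^ 2 / (16 * R ^ 2) * D ≤ τ ^ 2 / 4 := by
    calc τ ^ 2 / (16 * R ^ 2) * D ≤ τ ^ 2 / (16 * R ^ 2) * (4 * R ^ 2) := by gcongr
      _ = τ ^ 2 / 4 := by
          field_simp
          ring
  have h7 : BN2 (Tt e (-t) Y - X0) ≤ D + τ ^ 2 / 2 := by nlinarith
  have h8 : -D / τ ^ 2 ≤ 1 / 2 + -(BN2 (Tt e (-t) Y - X0)) / τ ^ 2 := by
    have : (1 : ℝ) / 2 = (τ ^ 2 / 2) / τ ^ 2 := by field_simp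
    rw [this, ← add_div]
    refine div_le_div_of_nonneg_right ?_ (by positivity)
    linarith
  have h9 : Real.exp (-D / τ ^ 2) ≤
      2 * Real.exp (-(BN2 (Tt e (-t) Y - X0)) / τ ^ 2) := by
    calc Real.exp (-D / τ ^ 2)
        ≤ Real.exp (1 / 2 + -(BN2 (Tt e (-t) Y - X0)) / τ ^ 2) := Real.exp_le_exp.2 h8
      _ = Real.exp (1 / 2) * Real.exp (-(BN2 (Tt e (-t) Y - X0)) / τ ^ 2) := by
          rw [Real.exp_add]
      _ ≤ 2 * Real.exp (-(BN2 (Tt e (-t) Y - X0)) / τ ^ 2) := by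
          gcongr
          have h10 : Real.exp (1 / 2) ^ 2 ≤ 2 ^ 2 := by
            rw [← Real.exp_nat_mul]
            have := Real.exp_one_lt_d9
            norm_num
            linarith
          exact (pow_le_pow_iff_left₀ (Real.exp_pos _).le (by norm_num) (by norm_num)).1 h10
  calc A * Real.exp (-D / τ ^ 2)
      ≤ A * (2 * Real.exp (-(BN2 (Tt e (-t) Y - X0)) / τ ^ 2)) := by gcongr
    _ = 2 * (A * Real.exp (-(BN2 (Tt e (-t) Y - X0)) / τ ^ 2)) := by ring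

theorem gau_quasi (e : ℂ × ℂ) (he : n2 e ≤ 2) {A : ℝ} (hA : 0 ≤ A) {X0 : CV d} {τ R : ℝ} (hτ : 0 < τ)
    (hτR : τ ≤ R) (h0 : BN2 X0 ≤ R ^ 2) {S : Set (CV d)} (hS : MeasurableSet S)
    (hSR : ∀ Y ∈ S, BN2 Y ≤ R ^ 2) {t : ℂ} (ht : ‖t‖ ≤ τ ^ 2 / (40 * R ^ 2)) :
    gau A X0 τ S ≤ 2 * gau A X0 τ (Tt e t ⁻¹' S) := by
  have hmt : Measurable (Tt e t : CV d → CV d) := (Tt_cont _ t).measurable
  have hmt' : Measurable (Tt e (-t) : CV d → CV d) := (Tt_cont _ (-t)).measurable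
  have hd : Measurable (fun X : CV d => ENNReal.ofReal (A * Real.exp (-(BN2 (X - X0)) / τ ^ 2))) := by
    have : Continuous (fun X : CV d => A * Real.exp (-(BN2 (X - X0)) / τ ^ 2)) := by
      have := BN2_cont (d := d)
      fun_prop
    exact this.measurable.ennreal_ofReal
  unfold gau
  rw [withDensity_apply _ hS, withDensity_apply _ (hmt hS)]
  have hmp := (mp_Tt (d := d) e (-t))
  have hpre : Tt e (-t) ⁻¹' (Tt e t ⁻¹' S) = S := by
    ext X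
    simp only [Set.mem_preimage, Tt_Tt, add_neg_cancel, Tt_zero]
  have hchg : ∫⁻ X in Tt e t ⁻¹' S, ENNReal.ofReal (A * Real.exp (-(BN2 (X - X0)) / τ ^ 2)) =
      ∫⁻ Y in S, ENNReal.ofReal (A * Real.exp (-(BN2 (Tt e (-t) Y - X0)) / τ ^ 2)) := by
    rw [← hmp.setLIntegral_comp_preimage (hmt hS) hd, hpre]
  have hd2 : Measurable (fun Y : CV d =>
      ENNReal.ofReal (A * Real.exp (-(BN2 (Tt e (-t) Y - X0)) / τ ^ 2))) := hd.comp hmt'
  rw [hchg, ← lintegral_const_mul _ hd2]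
  refine setLIntegral_mono' hS fun Y hY => ?_
  have h2 : (2 : ℝ≥0∞) = ENNReal.ofReal 2 := by simp
  rw [h2, ← ENNReal.ofReal_mul (by norm_num)]
  exact ENNReal.ofReal_le_ofReal (dens_le e he hA hτ hτR h0 (hSR Y hY) ht)

end Pool.H70.SF
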