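import Pool.Agent.H70.SF.PH

/-!
Module CR: at most `2 d` critical points up to phase.
-/

set_option autoImplicit false

open Finset Polynomial

namespace Pool.H70.SF

variable {d : ℕ}

/-- the polynomial `w ↦ hev1 p (w, 1)` -/
noncomputable def h1p (p : Fin (d + 1) → ℂ) : Polynomial ℂ :=
  ∑ k : Fin (d + 1), C (p k * (k : ℕ)) * X ^ ((k : ℕ) - 1)

/-- the polynomial `w ↦ hev2 p (w, 1)` -/
noncomputable def h2p (p : Fin (d + 1) → ℂ) : Polynomial ℂ :=
  ∑ k : Fin (d + 1), C (p k * ((d - k : ℕ) : ℂ)) * X ^ (k : ℕ)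

lemma h1p_eval (p : Fin (d + 1) → ℂ) (w : ℂ) : (h1p p).eval w = hev1 p (w, 1) := by
  unfold h1p hev1
  rw [eval_finsetSum]
  refine Finset.sum_congr rfl fun k _ => ?_
  simp
  ring

lemma h2p_eval (p : Fin (d + 1) → ℂ) (w : ℂ) : (h2p p).eval w = hev2 p (w, 1) := by
  unfold h2p hev2
  rw [eval_finsetSum]
  refine Finset.sum_congr rfl fun k _ => ?_
  simp
  ring

lemma h1p_deg (p : Fin (d + 1) → ℂ) : (h1p p).natDegree ≤ d - 1 := by
  unfold h1p
  refine natDegree_sum_le_of_forall_le _ _ fun k _ => ?_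
  refine (natDegree_C_mul_X_pow_le _ _).trans ?_
  omega

lemma h2p_deg (p : Fin (d + 1) → ℂ) : (h2p p).natDegree ≤ d - 1 := by
  unfold h2p
  refine natDegree_sum_le_of_forall_le _ _ fun k _ => ?_
  rcases Nat.eq_zero_or_pos (d - k) with h0 | h1
  · rw [h0]
    simp
  · refine (natDegree_C_mul_X_pow_le _ _).trans ?_
    omega

/-- the Jacobian in the affine chart -/
noncomputable def jp (X : CV d) : Polynomial ℂ := h1p X.1 * h2p X.2 - h2p X.1 * h1p X.2

lemma jp_eval (X : CV d) (w : ℂ) : (jp X).eval w = JJ X (w, 1) := by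
  unfold jp JJ
  rw [eval_sub, eval_mul, eval_mul, h1p_eval, h1p_eval, h2p_eval, h2p_eval]

lemma jp_deg (X : CV d) : (jp X).natDegree ≤ 2 * (d - 1) := by
  unfold jp
  refine (natDegree_sub_le _ _).trans (max_le ?_ ?_)
  · refine natDegree_mul_le.trans ?_
    have := h1p_deg X.1
    have := h2p_deg X.2
    omega
  · refine natDegree_mul_le.trans ?_
    have := h2p_deg X.1
    have := h1p_deg X.2
    omega

lemma JJ_cont_pt (X : CV d) : Continuous (JJ X) := by
  unfold JJ hev1 hev2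
  fun_prop

lemma JJ_chart (X : CV d) (u : ℂ × ℂ) (h : u.2 ≠ 0) :
    JJ X u = (u.2 ^ (d - 1)) ^ 2 * (jp X).eval (u.1 / u.2) := by
  rw [jp_eval, ← JJ_smul]
  congr 1
  ext
  · simp only [Prod.smul_fst, smul_eq_mul]
    field_simp
  · simp

lemma jp_ne (X : CV d) (hne : ∃ u, JJ X u ≠ 0) : jp X ≠ 0 := by
  intro h0
  obtain ⟨u, hu⟩ := hne
  apply hu
  have h1 : ∀ s : ℂ, s ≠ 0 → JJ X (u.1, s) = 0 := by
    intro s hs
    rw [JJ_chart X (u.1, s) hs, h0]
    simp
  by_cases h2 : u.2 = 0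
  · have hc : Continuous (fun s : ℂ => JJ X (u.1, s)) := (JJ_cont_pt X).comp (by fun_prop)
    have hcl : IsClosed {s : ℂ | JJ X (u.1, s) = 0} := isClosed_eq hc continuous_const
    have hd : Dense ({0}ᶜ : Set ℂ) := dense_compl_singleton 0
    have hsub : ({0}ᶜ : Set ℂ) ⊆ {s : ℂ | JJ X (u.1, s) = 0} := fun s hs => h1 s hs
    have hall := hcl.closure_subset_iff.2 hsub
    rw [hd.closure_eq] at hall
    have := hall (Set.mem_univ (0 : ℂ))
    have h3 : u = (u.1, (0 : ℂ)) := by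
      ext
      · rfl
      · exact h2
    rw [h3]
    exact this
  · exact h1 u.2 h2

theorem crit_finite (hd : 1 ≤ d) (X : CV d) (hne : ∃ u, JJ X u ≠ 0) :
    ∃ C : Finset (ℂ × ℂ), C.card ≤ 2 * d ∧ (∀ c ∈ C, IsU c) ∧
      ∀ c, IsU c → JJ X c = 0 → ∃ c' ∈ C, ∃ z : ℂ, ‖z‖ = 1 ∧ c = z • c' := by
  classical
  have hj := jp_ne X hne
  set f : ℂ → ℂ × ℂ := fun w => (((Real.sqrt (‖w‖ ^ 2 + 1))⁻¹ : ℝ) : ℂ) • ((w, 1) : ℂ × ℂ) with hf
  have hsq : ∀ w : ℂ, 0 < Real.sqrt (‖w‖ ^ 2 + 1) := fun w => Real.sqrt_pos.2 (by positivity)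
  refine ⟨insert (1, 0) ((jp X).roots.toFinset.image f), ?_, ?_, ?_⟩
  · have h1 := Finset.card_insert_le ((1, 0) : ℂ × ℂ) ((jp X).roots.toFinset.image f)
    have h2 : ((jp X).roots.toFinset.image f).card ≤ (jp X).roots.toFinset.card :=
      Finset.card_image_le
    have h3 := (jp X).roots.toFinset_card_le
    have h4 := (jp X).card_roots'
    have h5 := jp_deg X
    omega
  · intro c hc
    rcases Finset.mem_insert.1 hc with h | h
    · rw [h]
      simp [IsU, n2]
    · obtain ⟨w, _, rfl⟩ := Finset.mem_image.1 h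
      unfold IsU
      rw [hf]
      simp only
      rw [n2_smul, Complex.norm_real, norm_inv, Real.norm_of_nonneg (hsq w).le, inv_pow,
        Real.sq_sqrt (by positivity)]
      have : n2 ((w, 1) : ℂ × ℂ) = ‖w‖ ^ 2 + 1 := by simp [n2]
      rw [this]
      exact inv_mul_cancel₀ (by positivity)
  · intro c hc hJ
    by_cases h2 : c.2 = 0
    · refine ⟨(1, 0), Finset.mem_insert_self _ _, c.1, ?_, ?_⟩
      · unfold IsU n2 at hc
        rw [h2] at hc
        simp only [norm_zero, ne_eq, OfNat.ofNat_ne_zero, not_false_eq_true, zero_pow,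
          add_zero] at hc
        exact (pow_eq_one_iff_of_nonneg (norm_nonneg _) two_ne_zero).1 hc
      · ext
        · simp
        · simp [h2]
    · set w : ℂ := c.1 / c.2 with hw
      have hroot : (jp X).eval w = 0 := by
        rw [JJ_chart X c h2] at hJ
        have : (c.2 ^ (d - 1)) ^ 2 ≠ 0 := by positivity
        exact (mul_eq_zero.1 hJ).resolve_left this
      have hmem : w ∈ (jp X).roots.toFinset := by
        rw [Multiset.mem_toFinset, mem_roots hj]
        exact hroot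
      refine ⟨f w, Finset.mem_insert_of_mem (Finset.mem_image_of_mem f hmem),
        c.2 * ((Real.sqrt (‖w‖ ^ 2 + 1) : ℝ) : ℂ), ?_, ?_⟩
      · rw [norm_mul, Complex.norm_real, Real.norm_of_nonneg (hsq w).le]
        have h3 : (‖c.2‖ * Real.sqrt (‖w‖ ^ 2 + 1)) ^ 2 = 1 := by
          rw [mul_pow, Real.sq_sqrt (by positivity), hw, norm_div]
          unfold IsU n2 at hc
          have : ‖c.2‖ ≠ 0 := norm_ne_zero_iff.2 h2
          field_simp
          exact hc
        have h4 : 0 ≤ ‖c.2‖ * Real.sqrt (‖w‖ ^ 2 + 1) := by positivity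
        exact (pow_eq_one_iff_of_nonneg h4 two_ne_zero).1 h3
      · rw [hf]
        simp only
        rw [smul_smul]
        have h5 : c.2 * ((Real.sqrt (‖w‖ ^ 2 + 1) : ℝ) : ℂ) *
            (((Real.sqrt (‖w‖ ^ 2 + 1))⁻¹ : ℝ) : ℂ) = c.2 := by
          rw [mul_assoc, ← Complex.ofReal_mul, mul_inv_cancel₀ (hsq w).ne']
          simp
        rw [h5]
        ext
        · simp only [Prod.smul_fst, smul_eq_mul, hw]
          field_simp
        · simp

end Pool.H70.SF
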