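import Pool.Agent.H70.SF.Def

/-!
Module PH: all quantities depend on the critical point only up to phase; triangle inequality for the chordal
distance; the Jacobian is invariant under the flows.
-/

set_option autoImplicit false

open Finset

namespace Pool.H70.SF

variable {d : ℕ}

lemma n2_smul (z : ℂ) (u : ℂ × ℂ) : n2 (z • u) = ‖z‖ ^ 2 * n2 u := by
  unfold n2
  simp only [Prod.smul_fst, Prod.smul_snd, smul_eq_mul, norm_mul]
  ring

lemma n2_nonneg (u : ℂ × ℂ) : 0 ≤ n2 u := by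
  unfold n2
  positivity

lemma n2_smul_unit {z : ℂ} (hz : ‖z‖ = 1) (u : ℂ × ℂ) : n2 (z • u) = n2 u := by
  rw [n2_smul, hz]
  ring

lemma IsU.smul {z : ℂ} (hz : ‖z‖ = 1) {u : ℂ × ℂ} (hu : IsU u) : IsU (z • u) := by
  unfold IsU at *
  rw [n2_smul_unit hz, hu]

lemma hev_smul (p : Fin (d + 1) → ℂ) (z : ℂ) (u : ℂ × ℂ) : hev p (z • u) = z ^ d * hev p u := by
  unfold hev
  rw [Finset.mul_sum]
  refine Finset.sum_congr rfl fun k _ => ?_
  have hk : (k : ℕ) + (d - k) = d := by omega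
  have : z ^ d = z ^ (k : ℕ) * z ^ (d - k) := by rw [← pow_add, hk]
  rw [this]
  simp only [Prod.smul_fst, Prod.smul_snd, smul_eq_mul, mul_pow]
  ring

lemma hev1_smul (p : Fin (d + 1) → ℂ) (z : ℂ) (u : ℂ × ℂ) :
    hev1 p (z • u) = z ^ (d - 1) * hev1 p u := by
  unfold hev1
  rw [Finset.mul_sum]
  refine Finset.sum_congr rfl fun k _ => ?_
  simp only [Prod.smul_fst, Prod.smul_snd, smul_eq_mul, mul_pow]
  rcases Nat.eq_zero_or_pos (k : ℕ) with h0 | h1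
  · rw [h0]
    simp
  · have hk : ((k : ℕ) - 1) + (d - k) = d - 1 := by omega
    have : z ^ (d - 1) = z ^ ((k : ℕ) - 1) * z ^ (d - k) := by rw [← pow_add, hk]
    rw [this]
    ring

lemma hev2_smul (p : Fin (d + 1) → ℂ) (z : ℂ) (u : ℂ × ℂ) :
    hev2 p (z • u) = z ^ (d - 1) * hev2 p u := by
  unfold hev2
  rw [Finset.mul_sum]
  refine Finset.sum_congr rfl fun k _ => ?_
  simp only [Prod.smul_fst, Prod.smul_snd, smul_eq_mul, mul_pow]
  rcases Nat.eq_zero_or_pos (d - k) with h0 | h1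
  · rw [h0]
    simp
  · have hk : (k : ℕ) + (d - k - 1) = d - 1 := by omega
    have : z ^ (d - 1) = z ^ (k : ℕ) * z ^ (d - k - 1) := by rw [← pow_add, hk]
    rw [this]
    ring

lemma FF_smul (X : CV d) (z : ℂ) (u : ℂ × ℂ) : FF X (z • u) = z ^ d • FF X u := by
  unfold FF
  rw [hev_smul, hev_smul]
  rfl

lemma JJ_smul (X : CV d) (z : ℂ) (u : ℂ × ℂ) :
    JJ X (z • u) = (z ^ (d - 1)) ^ 2 * JJ X u := by
  unfold JJ
  rw [hev1_smul, hev1_smul, hev2_smul, hev2_smul]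
  ring

lemma n2_FF_smul (X : CV d) {z : ℂ} (hz : ‖z‖ = 1) (u : ℂ × ℂ) :
    n2 (FF X (z • u)) = n2 (FF X u) := by
  rw [FF_smul, n2_smul_unit]
  rw [norm_pow, hz, one_pow]

lemma aa_smul (X : CV d) {z : ℂ} (hz : ‖z‖ = 1) (u : ℂ × ℂ) :
    aa X (z • u) = (z ^ (d - 1)) ^ 2 * aa X u := by
  unfold aa
  rw [JJ_smul, n2_FF_smul X hz]
  ring

lemma nx_smul (X : CV d) {z : ℂ} (hz : ‖z‖ = 1) (u : ℂ × ℂ) :
    nx X (z • u) = z ^ d • nx X u := by
  unfold nx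
  rw [n2_FF_smul X hz, FF_smul, smul_comm]

/-- the phase of the orbit -/
def zp (d : ℕ) (z : ℂ) : ℕ → ℂ
  | 0 => z ^ d
  | l + 1 => zp d z l ^ d

lemma zp_norm {z : ℂ} (hz : ‖z‖ = 1) (l : ℕ) : ‖zp d z l‖ = 1 := by
  induction l with
  | zero => simp [zp, hz]
  | succ l ih => simp [zp, ih]

lemma ob_smul (X : CV d) {z : ℂ} (hz : ‖z‖ = 1) (c : ℂ × ℂ) (l : ℕ) :
    ob X (z • c) l = zp d z l • ob X c l := by
  induction l with
  | zero => exact nx_smul X hz c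
  | succ l ih =>
    simp only [ob, zp]
    rw [ih, nx_smul X (zp_norm hz l)]

lemma al_smul (X : CV d) {z : ℂ} (hz : ‖z‖ = 1) (c : ℂ × ℂ) (l : ℕ) :
    al X (z • c) l = (zp d z l ^ (d - 1)) ^ 2 * al X c l := by
  unfold al
  rw [ob_smul X hz, aa_smul X (zp_norm hz l)]

lemma norm_al_smul (X : CV d) {z : ℂ} (hz : ‖z‖ = 1) (c : ℂ × ℂ) (l : ℕ) :
    ‖al X (z • c) l‖ = ‖al X c l‖ := by
  rw [al_smul X hz, norm_mul, norm_pow, norm_pow, zp_norm hz]
  simp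

lemma Ph_smul (X : CV d) {z : ℂ} (hz : ‖z‖ = 1) (c : ℂ × ℂ) (k : ℕ) :
    Ph X (z • c) k = Ph X c k := by
  unfold Ph
  exact Finset.prod_congr rfl fun l _ => norm_al_smul X hz c l

lemma SS_smul (X : CV d) {z : ℂ} (hz : ‖z‖ = 1) (c : ℂ × ℂ) (k : ℕ) :
    SS X (z • c) k = SS X c k := by
  unfold SS
  exact Finset.sum_congr rfl fun l _ => by rw [Ph_smul X hz]

lemma Lm_smul (K : ℝ) (X : CV d) {z : ℂ} (hz : ‖z‖ = 1) (c : ℂ × ℂ) (k : ℕ) :
    Lm K X (z • c) k = Lm K X c k := by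
  unfold Lm
  congr 2
  exact Finset.sum_congr rfl fun l _ => by rw [Ph_smul X hz, norm_al_smul X hz]

lemma wd_Nd_smul (e : ℂ × ℂ) (z : ℂ) (u : ℂ × ℂ) :
    wd (z • u) (Nd e (z • u)) = z ^ 2 * wd u (Nd e u) := by
  unfold Nd wd
  simp only [Prod.smul_fst, Prod.smul_snd, smul_eq_mul]
  ring

lemma om_smul (hd : 1 ≤ d) (e : ℂ × ℂ) (X : CV d) {z : ℂ} (hz : ‖z‖ = 1) (c : ℂ × ℂ) (k : ℕ) :
    om e X (z • c) k = zp d z k ^ 2 * om e X c k := by
  induction k with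
  | zero =>
    simp only [om]
    rw [ob_smul X hz, wd_Nd_smul]
  | succ k ih =>
    simp only [om]
    rw [ih, al_smul X hz, ob_smul X hz, wd_Nd_smul]
    have h : zp d z (k + 1) ^ 2 = (zp d z k ^ (d - 1)) ^ 2 * zp d z k ^ 2 := by
      simp only [zp]
      rw [← mul_pow, ← pow_succ]
      congr 3
      omega
    rw [h]
    ring

lemma norm_om_smul (hd : 1 ≤ d) (e : ℂ × ℂ) (X : CV d) {z : ℂ} (hz : ‖z‖ = 1) (c : ℂ × ℂ)
    (k : ℕ) : ‖om e X (z • c) k‖ = ‖om e X c k‖ := by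
  rw [om_smul hd e X hz, norm_mul, norm_pow, zp_norm hz]
  simp

/-- phase invariance of the event -/
theorem Ev.smul (hd : 1 ≤ d) {M K γ η : ℝ} {e : ℂ × ℂ} {m : ℕ} {X : CV d} {c : ℂ × ℂ} {k : ℕ}
    {z : ℂ} (hz : ‖z‖ = 1) (h : Ev M K γ η e m X (z • c) k) : Ev M K γ η e m X c k := by
  have hz0 : z ≠ 0 := by
    rintro rfl
    simp at hz
  refine ⟨?_, ?_, h.kpos, ?_, ?_, ?_, ?_, ?_, ?_, ?_⟩
  · have h1 := h.unit
    unfold IsU at *
    rwa [n2_smul_unit hz] at h1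
  · have h1 := h.crit
    rw [JJ_smul] at h1
    have : (z ^ (d - 1)) ^ 2 ≠ 0 := by positivity
    exact (mul_eq_zero.1 h1).resolve_left this
  · intro l hl
    have h1 := h.low l hl
    rwa [norm_al_smul X hz] at h1
  · have h1 := h.sum
    rwa [SS_smul X hz] at h1
  · have h1 := h.adm
    rwa [Ph_smul X hz, norm_om_smul hd e X hz] at h1
  · have h1 := h.scl
    rwa [Lm_smul K X hz] at h1
  · have h1 := h.scu
    rwa [Lm_smul K X hz] at h1
  · have h1 := h.size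
    rwa [Lm_smul K X hz, Ph_smul X hz] at h1
  · have h1 := h.bad
    rwa [Lm_smul K X hz, norm_al_smul X hz] at h1

/-! ### Invariance of the Jacobian -/

lemma hev1_lin (p q : Fin (d + 1) → ℂ) (a : ℂ) (u : ℂ × ℂ) :
    hev1 (p + a • q) u = hev1 p u + a * hev1 q u := by
  unfold hev1
  rw [Finset.mul_sum, ← Finset.sum_add_distrib]
  refine Finset.sum_congr rfl fun k _ => ?_
  simp only [Pi.add_apply, Pi.smul_apply, smul_eq_mul]
  ring

lemma hev2_lin (p q : Fin (d + 1) → ℂ) (a : ℂ) (u : ℂ × ℂ) :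
    hev2 (p + a • q) u = hev2 p u + a * hev2 q u := by
  unfold hev2
  rw [Finset.mul_sum, ← Finset.sum_add_distrib]
  refine Finset.sum_congr rfl fun k _ => ?_
  simp only [Pi.add_apply, Pi.smul_apply, smul_eq_mul]
  ring

lemma hev_lin (p q : Fin (d + 1) → ℂ) (a : ℂ) (u : ℂ × ℂ) :
    hev (p + a • q) u = hev p u + a * hev q u := by
  unfold hev
  rw [Finset.mul_sum, ← Finset.sum_add_distrib]
  refine Finset.sum_congr rfl fun k _ => ?_
  simp only [Pi.add_apply, Pi.smul_apply, smul_eq_mul]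
  ring

lemma Tt_fst (e : ℂ × ℂ) (t : ℂ) (X : CV d) :
    (Tt e t X).1 = X.1 + (-(t * e.1 * e.2)) • X.1 + (t * e.1 ^ 2) • X.2 := by
  unfold Tt NX
  ext k
  simp only [Prod.fst_add, Prod.smul_fst, Pi.add_apply, Pi.smul_apply, Pi.sub_apply, smul_eq_mul]
  ring

lemma Tt_snd (e : ℂ × ℂ) (t : ℂ) (X : CV d) :
    (Tt e t X).2 = X.2 + (-(t * e.2 ^ 2)) • X.1 + (t * e.1 * e.2) • X.2 := by
  unfold Tt NX
  ext k
  simp only [Prod.snd_add, Prod.smul_snd, Pi.add_apply, Pi.smul_apply, Pi.sub_apply, smul_eq_mul]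
  ring

/-- the critical points do not move -/
theorem JJ_Tt (e : ℂ × ℂ) (t : ℂ) (X : CV d) (u : ℂ × ℂ) : JJ (Tt e t X) u = JJ X u := by
  unfold JJ
  rw [Tt_fst, Tt_snd]
  simp only [hev1_lin, hev2_lin]
  ring

/-! ### Chordal distance -/

lemma inner_le {u v : ℂ × ℂ} (hu : IsU u) (hv : IsU v) :
    ‖u.1 * (starRingEnd ℂ) v.1 + u.2 * (starRingEnd ℂ) v.2‖ ≤ 1 := by
  have h1 : ‖u.1 * (starRingEnd ℂ) v.1 + u.2 * (starRingEnd ℂ) v.2‖ ≤
      ‖u.1‖ * ‖v.1‖ + ‖u.2‖ * ‖v.2‖ := by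
    refine (norm_add_le _ _).trans ?_
    rw [norm_mul, norm_mul, RCLike.norm_conj, RCLike.norm_conj]
  unfold IsU n2 at hu hv
  nlinarith [sq_nonneg (‖u.1‖ - ‖v.1‖), sq_nonneg (‖u.2‖ - ‖v.2‖)]

/-- triangle inequality -/
theorem wd_tri {u v w : ℂ × ℂ} (hu : IsU u) (hv : IsU v) (hw : IsU w) :
    ‖wd u w‖ ≤ ‖wd u v‖ + ‖wd w v‖ := by
  have hvv : v.1 * (starRingEnd ℂ) v.1 + v.2 * (starRingEnd ℂ) v.2 = 1 := by
    rw [Complex.mul_conj, Complex.mul_conj, Complex.normSq_eq_norm_sq, Complex.normSq_eq_norm_sq]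
    unfold IsU n2 at hv
    rw [← Complex.ofReal_add, hv]
    simp
  have hid : wd u w = (u.1 * (starRingEnd ℂ) v.1 + u.2 * (starRingEnd ℂ) v.2) * (-wd w v) +
      (w.1 * (starRingEnd ℂ) v.1 + w.2 * (starRingEnd ℂ) v.2) * wd u v := by
    have : wd u w = (v.1 * (starRingEnd ℂ) v.1 + v.2 * (starRingEnd ℂ) v.2) * wd u w := by
      rw [hvv, one_mul]
    rw [this]
    unfold wd
    ring
  rw [hid]
  refine (norm_add_le _ _).trans ?_
  rw [norm_mul, norm_mul, norm_neg]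
  have h1 := inner_le hu hv
  have h2 := inner_le hw hv
  nlinarith [norm_nonneg (wd w v), norm_nonneg (wd u v)]

lemma n2_nx (X : CV d) {u : ℂ × ℂ} (h : 0 < n2 (FF X u)) : IsU (nx X u) := by
  unfold IsU nx
  rw [n2_smul, Complex.norm_real, norm_inv, Real.norm_of_nonneg (Real.sqrt_nonneg _), inv_pow,
    Real.sq_sqrt h.le]
  exact inv_mul_cancel₀ h.ne'

lemma Rg.pos {M : ℝ} (hM : 0 < M) {X : CV d} (h : Rg M X) {u : ℂ × ℂ} (hu : IsU u) :
    0 < n2 (FF X u) := lt_of_lt_of_le (by positivity) (h.low u hu)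

lemma ob_unit {M : ℝ} (hM : 0 < M) {X : CV d} (h : Rg M X) {c : ℂ × ℂ} (hc : IsU c) (l : ℕ) :
    IsU (ob X c l) := by
  induction l with
  | zero => exact n2_nx X (h.pos hM hc)
  | succ l ih => exact n2_nx X (h.pos hM ih)

end Pool.H70.SF
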