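import Pool.Agent.H70.SF.FDX
import Pool.Agent.H84.SF.Dme

/-!
# Smoothed Fatou: the late event `Ev` of the deterministic part is the event `EvD` of the measure part (module EVC)
-/

set_option autoImplicit false

open Finset Metric Set

namespace Pool.H70.SF

open Pool.Agent.H91.SF


variable {d : ℕ}

theorem evd_of {X : CV d} (h : ND X) {e : ℂ × ℂ} {C : Finset UU} (hC : ∀ c ∈ C, JJ X c.val = 0)
    {M K g η N : ℝ} {q : UU} {k : ℕ} (hE : Pool.Agent.H84.SF.Ev (fd e X) C M K g η N q k) :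
    EvD M K g η N e X q.val k := by
  obtain ⟨hq, one, ps, ssb, tt, lam, grw, sml⟩ := hE
  have h0 : Pool.H70.SF.Tt e 0 X = X := Tt_zero e X
  have hnz := (pos_fd h e 0 q k).1 ps
  rw [ss_fd h e 0 q k, h0] at ssb
  rw [lm_fd h e K 0 q k, h0] at lam
  rw [lm_fd h e K 0 q k, ph_fd h e 0 q k, h0] at grw
  rw [lm_fd h e K 0 q k, a_fd h e 0 q k, h0] at sml
  rw [h0] at hnz
  have hP : 0 < Ph X q.val k := Finset.prod_pos fun l hl =>
    norm_pos_iff.2 (hnz l (Finset.mem_range.1 hl))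
  have hP0 : Ph (Pool.H70.SF.Tt e 0 X) q.val k ≠ 0 := by
    rw [h0]
    exact hP.ne'
  rw [T_fd e 0 q hP0, h0, le_div_iff₀ hP] at tt
  refine ⟨q.prop, hC q hq, one, hnz, ssb, ?_, lam.le, grw, sml.le⟩
  rw [div_eq_mul_inv, mul_comm, ← one_div]
  exact tt

end Pool.H70.SF
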