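import Pool.Agent.H70.SF.AV
import Pool.Agent.H70.SF.GA

/-!
Module AVG: the reduction of the Gaussian probability of a bounded measurable set to the lines `X + t N_e X`.
-/

set_option autoImplicit false

open MeasureTheory Metric Set
open scoped ENNReal

namespace Pool.H70.SF

variable {d : ℕ}

/-- the Gaussian measure of `S` is at most twice the largest proportion of `S` on discs of lines -/
theorem gau_line (e : ℂ × ℂ) (he : n2 e ≤ 2) {A : ℝ} (hA : 0 ≤ A) {X0 : CV d} {τ R : ℝ}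
    (hτ : 0 < τ) (hτR : τ ≤ R) (h0 : BN2 X0 ≤ R ^ 2) (hfin : gau A X0 τ univ ≠ ∞)
    {S : Set (CV d)} (hS : MeasurableSet S) (hSR : ∀ Y ∈ S, BN2 Y ≤ R ^ 2) {r : ℝ} (hr : 0 < r)
    (hrt : r ≤ τ ^ 2 / (40 * R ^ 2)) {p : ℝ} (hp0 : 0 ≤ p)
    (hp : ∀ X : CV d, volume ({t : ℂ | Tt e t X ∈ S} ∩ closedBall 0 r) ≤
      ENNReal.ofReal (p * (Real.pi * r ^ 2))) :
    gau A X0 τ S ≤ ENNReal.ofReal (2 * p) * gau A X0 τ univ := by
  have : IsFiniteMeasure (gau A X0 τ) := ⟨lt_top_iff_ne_top.2 hfin⟩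
  have hvol : volume (closedBall (0 : ℂ) r) = ENNReal.ofReal (Real.pi * r ^ 2) := by
    rw [Complex.volume_closedBall, ENNReal.ofReal_mul Real.pi_pos.le, ENNReal.ofReal_pow hr.le,
      mul_comm]
    congr 1
    rw [ENNReal.ofReal, ← NNReal.coe_real_pi, Real.toNNReal_coe]
  have h := averaging (gau A X0 τ) (Tt e) (Tt_meas e).measurable hS hr
    (fun t ht => gau_quasi e he hA hτ hτR h0 hS hSR (ht.trans hrt)) (p := ENNReal.ofReal p)
    (fun X => by
      rw [hvol, ← ENNReal.ofReal_mul hp0]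
      refine le_trans (measure_mono ?_) (hp X)
      rintro t ⟨ht, htS⟩
      exact ⟨htS, by simpa using ht⟩)
  rw [ENNReal.ofReal_mul (by norm_num)]
  simpa using h

end Pool.H70.SF
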