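import Pool.Agent.H70.SF.LC

/-!
Module GR: grid covering and summation over the dyadic scales.
-/

set_option autoImplicit false

open MeasureTheory Metric Set
open scoped ENNReal

namespace Pool.H70.SF

/-- covering of a disc by discs of radius `r` -/
lemma grid_cover {R r : ℝ} (hr : 0 < r) (hR : 0 ≤ R) :
    closedBall (0 : ℂ) R ⊆ ⋃ p ∈ (Finset.Icc (-(⌈R / r⌉₊ : ℤ)) ⌈R / r⌉₊ ×ˢ
      Finset.Icc (-(⌈R / r⌉₊ : ℤ)) ⌈R / r⌉₊ : Finset (ℤ × ℤ)),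
        closedBall ((r : ℂ) * ((p.1 : ℂ) + (p.2 : ℂ) * Complex.I)) r := by
  intro t ht
  have htR : ‖t‖ ≤ R := by simpa using ht
  have key : ∀ x : ℝ, |x| ≤ R → round (x / r) ∈ Finset.Icc (-(⌈R / r⌉₊ : ℤ)) ⌈R / r⌉₊ ∧
      |x - r * (round (x / r) : ℤ)| ≤ r / 2 := by
    intro x hx
    have h1 : |x / r - round (x / r)| ≤ 1 / 2 := abs_sub_round (x / r)
    have h2 : |x / r| ≤ R / r := by
      rw [abs_div, abs_of_pos hr]
      gcongr
    have h3 : R / r ≤ (⌈R / r⌉₊ : ℝ) := Nat.le_ceil _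
    have h4 : |((round (x / r) : ℤ) : ℝ)| < (⌈R / r⌉₊ : ℝ) + 1 := by
      have h5 := abs_le.1 h1
      have h6 := abs_le.1 h2
      rw [abs_lt]
      constructor <;> linarith [h5.1, h5.2, h6.1, h6.2]
    have h7 : |(round (x / r) : ℤ)| < (⌈R / r⌉₊ : ℤ) + 1 := by
      have : ((|(round (x / r) : ℤ)| : ℤ) : ℝ) < (((⌈R / r⌉₊ : ℤ) + 1 : ℤ) : ℝ) := by
        push_cast
        exact h4
      exact_mod_cast this
    constructor
    · rw [Finset.mem_Icc]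
      have h8 := abs_lt.1 h7
      constructor <;> omega
    · have h9 : x - r * (round (x / r) : ℤ) = r * (x / r - round (x / r)) := by
        field_simp
      rw [h9, abs_mul, abs_of_pos hr]
      calc r * |x / r - round (x / r)| ≤ r * (1 / 2) := by gcongr
        _ = r / 2 := by ring
  have hre := key t.re ((Complex.abs_re_le_norm t).trans htR)
  have him := key t.im ((Complex.abs_im_le_norm t).trans htR)
  simp only [mem_iUnion]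
  refine ⟨(round (t.re / r), round (t.im / r)), ?_, ?_⟩
  · rw [Finset.mem_product]
    exact ⟨hre.1, him.1⟩
  · rw [mem_closedBall, dist_eq_norm]
    refine (Complex.norm_le_abs_re_add_abs_im _).trans ?_
    have e1 : (t - (r : ℂ) * (((round (t.re / r) : ℤ) : ℂ) +
        ((round (t.im / r) : ℤ) : ℂ) * Complex.I)).re = t.re - r * (round (t.re / r) : ℤ) := by
      simp
    have e2 : (t - (r : ℂ) * (((round (t.re / r) : ℤ) : ℂ) +
        ((round (t.im / r) : ℤ) : ℂ) * Complex.I)).im = t.im - r * (round (t.im / r) : ℤ) := by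
      simp
    rw [e1, e2]
    linarith [hre.2, him.2]

/-- from small discs to a large disc -/
theorem grid_vol {A : Set ℂ} {R r : ℝ} (hr : 0 < r) (hrR : r ≤ R) {β : ℝ} (hβ : 0 ≤ β)
    (h : ∀ t0 : ℂ, volume (A ∩ closedBall t0 r) ≤ ENNReal.ofReal β) :
    volume (A ∩ closedBall 0 R) ≤ ENNReal.ofReal (25 * (R / r) ^ 2 * β) := by
  have hR : 0 ≤ R := hr.le.trans hrR
  set G : Finset (ℤ × ℤ) := Finset.Icc (-(⌈R / r⌉₊ : ℤ)) ⌈R / r⌉₊ ×ˢ
      Finset.Icc (-(⌈R / r⌉₊ : ℤ)) ⌈R / r⌉₊ with hG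
  have hcard : (G.card : ℝ) ≤ 25 * (R / r) ^ 2 := by
    have h1 : G.card = (2 * ⌈R / r⌉₊ + 1) ^ 2 := by
      rw [hG, Finset.card_product, Int.card_Icc, sq]
      have : ((⌈R / r⌉₊ : ℤ) + 1 - -(⌈R / r⌉₊ : ℤ)).toNat = 2 * ⌈R / r⌉₊ + 1 := by omega
      rw [this]
    have h2 : (⌈R / r⌉₊ : ℝ) ≤ R / r + 1 := (Nat.ceil_lt_add_one (by positivity)).le
    have h3 : 1 ≤ R / r := by rwa [one_le_div hr]
    rw [h1]
    push_cast
    have h4 : 2 * (⌈R / r⌉₊ : ℝ) + 1 ≤ 5 * (R / r) := by linarith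
    calc (2 * (⌈R / r⌉₊ : ℝ) + 1) ^ 2 ≤ (5 * (R / r)) ^ 2 := by gcongr
      _ = 25 * (R / r) ^ 2 := by ring
  have hsub : A ∩ closedBall 0 R ⊆ ⋃ p ∈ G,
      (A ∩ closedBall ((r : ℂ) * ((p.1 : ℂ) + (p.2 : ℂ) * Complex.I)) r) := by
    rintro t ⟨htA, htR⟩
    have := grid_cover hr hR htR
    simp only [mem_iUnion] at this ⊢
    obtain ⟨p, hp, h5⟩ := this
    exact ⟨p, hp, htA, h5⟩
  calc volume (A ∩ closedBall 0 R) ≤ volume (⋃ p ∈ G,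
      (A ∩ closedBall ((r : ℂ) * ((p.1 : ℂ) + (p.2 : ℂ) * Complex.I)) r)) := measure_mono hsub
    _ ≤ ∑ p ∈ G, volume (A ∩ closedBall ((r : ℂ) * ((p.1 : ℂ) + (p.2 : ℂ) * Complex.I)) r) :=
        measure_biUnion_finset_le _ _
    _ ≤ ∑ p ∈ G, ENNReal.ofReal β := Finset.sum_le_sum fun p _ => h _
    _ = ENNReal.ofReal (G.card * β) := by
        rw [Finset.sum_const, nsmul_eq_mul, ENNReal.ofReal_mul (Nat.cast_nonneg _),
          ENNReal.ofReal_natCast]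
    _ ≤ ENNReal.ofReal (25 * (R / r) ^ 2 * β) := by
        refine ENNReal.ofReal_le_ofReal ?_
        gcongr

/-- all scales -/
theorem count_all {ι X : Type*} [PseudoMetricSpace X] (C : Finset ι) (pt : ι → X)
    (x : ι → ℕ → ℂ → X) (P A T L : ι → ℕ → ℂ → ℝ) (Ev : ι → ℕ → ℂ → Prop)
    {M τ0 γ η Λ R : ℝ} (hM : 0 ≤ M) (hτ0 : 0 < τ0) (hΛ : 1 ≤ Λ) (hη0 : 0 ≤ η)
    (hη1 : η ≤ 1) (hγ : 0 ≤ γ) (hγη : 3 * η < 2 * γ)
    (hP : ∀ c k t, 0 ≤ P c k t)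
    (h1 : ∀ c ∈ C, ∀ k t, Ev c k t → Λ ≤ L c k t ∧ (k : ℝ) ≤ L c k t)
    (h2 : ∀ c ∈ C, ∀ k t, Ev c k t → L c k t ^ (1 - η) ≤ P c k t)
    (h3 : ∀ c ∈ C, ∀ k t, Ev c k t → A c k t ≤ L c k t ^ (-γ))
    (h4 : ∀ c ∈ C, ∀ k t, Ev c k t → τ0 ≤ T c k t)
    (h5 : ∀ c ∈ C, ∀ k t, Ev c k t → ∃ c' ∈ C, dist (x c k t) (pt c') ≤ M * A c k t)
    (h6 : ∀ c ∈ C, ∀ k t, Ev c k t → ∑ l ∈ Finset.range k, P c l t ≤ L c k t)
    (frz : ∀ c ∈ C, ∀ k t, Ev c k t → ∀ t', ‖t' - t‖ * L c k t ≤ 1 → ∀ l ≤ k,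
      P c l t' ≤ 4 / 3 * P c l t ∧ T c l t' - τ0 / 4 ≤ T c l t ∧
      ∀ t'', ‖t'' - t‖ * L c k t ≤ 1 →
        ‖t' - t''‖ * ((T c l t - τ0 / 4) * P c l t / 2) ≤ dist (x c l t') (x c l t''))
    (hR : 1 ≤ 4 * Λ * R) :
    volume ({t | ∃ c ∈ C, ∃ k, Ev c k t} ∩ closedBall 0 R) ≤
      ENNReal.ofReal (193600 * Real.pi * (C.card * C.card) * (M / τ0) ^ 2 * R ^ 2 *
        (Λ ^ (-(2 * γ - 3 * η)) / (1 - 2 ^ (-(2 * γ - 3 * η))))) := by
  have hΛ0 : 0 < Λ := lt_of_lt_of_le one_pos hΛ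
  have hR0 : 0 < R := by
    by_contra h
    push Not at h
    nlinarith
  set κ : ℝ := 2 * γ - 3 * η with hκ
  have hκ0 : 0 < κ := by rw [hκ]; linarith
  set K0 : ℝ := 193600 * Real.pi * (C.card * C.card) * (M / τ0) ^ 2 * R ^ 2 with hK0
  have hK00 : 0 ≤ K0 := by positivity
  -- one scale
  have hscale : ∀ m : ℕ, volume ({t | ∃ c ∈ C, ∃ k, Ev c k t ∧ L c k t ∈
      Icc (Λ * 2 ^ m) (2 * (Λ * 2 ^ m))} ∩ closedBall 0 R) ≤
      ENNReal.ofReal (K0 * (Λ ^ (-κ) * (2 ^ (-κ)) ^ m)) := by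
    intro m
    set Λm : ℝ := Λ * 2 ^ m with hΛm
    have h2m : (1 : ℝ) ≤ 2 ^ m := one_le_pow₀ (by norm_num)
    have hΛm1 : 1 ≤ Λm := by
      rw [hΛm]
      nlinarith
    have hΛm0 : 0 < Λm := lt_of_lt_of_le one_pos hΛm1
    set r : ℝ := 1 / (4 * Λm) with hr
    have hr0 : 0 < r := by positivity
    have hrR : r ≤ R := by
      rw [hr, div_le_iff₀ (by positivity)]
      have : Λ ≤ Λm := by
        rw [hΛm]
        nlinarith
      nlinarith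
    have hloc : ∀ t0 : ℂ, volume ({t | ∃ c ∈ C, ∃ k, Ev c k t ∧ L c k t ∈
        Icc Λm (2 * Λm)} ∩ closedBall t0 r) ≤
        ENNReal.ofReal (C.card * C.card * (4 * Λm ^ η) *
          (Real.pi * (11 * M * Λm ^ (-γ - 1 + η) / τ0) ^ 2)) := by
      intro t0
      have h := local_count C pt x P A T L (fun c k t => Ev c k t ∧ L c k t ∈ Icc Λm (2 * Λm))
        (r := r) (M := M) (τ0 := τ0) (γ := γ) (η := η) (Λ := Λm) (Kmax := ⌊2 * Λm⌋₊) hM hτ0 hΛm1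
        hη0 hη1 hγ (fun c hc k t he => by
          refine Nat.le_floor ?_
          exact (h1 c hc k t he.1).2.trans he.2.2) hP (fun c hc k t he => he.2)
        (fun c hc k t he => h2 c hc k t he.1) (fun c hc k t he => h3 c hc k t he.1)
        (fun c hc k t he => h4 c hc k t he.1) (fun c hc k t he => h5 c hc k t he.1)
        (fun c hc k t he => h6 c hc k t he.1) (fun c hc k t he => frz c hc k t he.1) t0 (by
          rw [hr]
          field_simp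
          exact le_refl _)
      refine (measure_mono ?_).trans h
      rintro t ⟨⟨c, hc, k, hev⟩, ht⟩
      exact ⟨ht, c, hc, k, hev⟩
    have hg := grid_vol hr0 hrR (by positivity) hloc
    refine hg.trans (ENNReal.ofReal_le_ofReal ?_)
    have e1 : Λm ^ (-γ - 1 + η) ^ 1 = Λm ^ (-γ - 1 + η) := by rw [pow_one]
    have e2 : (Λm ^ (-γ - 1 + η)) ^ 2 * Λm ^ η * Λm ^ 2 = Λm ^ (-κ) := by
      rw [← Real.rpow_natCast (Λm ^ (-γ - 1 + η)) 2, ← Real.rpow_mul hΛm0.le,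
        ← Real.rpow_natCast Λm 2, ← Real.rpow_add hΛm0, ← Real.rpow_add hΛm0]
      congr 1
      rw [hκ]
      push_cast
      ring
    have e3 : Λm ^ (-κ) = Λ ^ (-κ) * (2 ^ (-κ)) ^ m := by
      rw [hΛm, Real.mul_rpow hΛ0.le (by positivity), ← Real.rpow_natCast 2 m,
        ← Real.rpow_natCast (2 ^ (-κ)) m, ← Real.rpow_mul (by norm_num),
        ← Real.rpow_mul (by norm_num)]
      congr 2
      ring
    rw [← e3, ← e2, hK0, hr]
    refine le_of_eq ?_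
    field_simp
    ring
  -- union over the scales
  have hsub : {t | ∃ c ∈ C, ∃ k, Ev c k t} ∩ closedBall 0 R ⊆
      ⋃ m : ℕ, ({t | ∃ c ∈ C, ∃ k, Ev c k t ∧ L c k t ∈
        Icc (Λ * 2 ^ m) (2 * (Λ * 2 ^ m))} ∩ closedBall 0 R) := by
    rintro t ⟨⟨c, hc, k, hev⟩, ht⟩
    have hL := (h1 c hc k t hev).1
    have hLpos : 0 < L c k t := hΛ0.trans_le hL
    -- the dyadic scale
    obtain ⟨m, hm1, hm2⟩ := exists_nat_pow_near (x := L c k t / Λ) (y := 2)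
      ((one_le_div hΛ0).2 hL) (by norm_num)
    simp only [mem_iUnion]
    refine ⟨m, ⟨c, hc, k, hev, ?_, ?_⟩, ht⟩
    · rw [le_div_iff₀ hΛ0] at hm1
      linarith
    · rw [div_lt_iff₀ hΛ0, pow_succ] at hm2
      linarith
  have hq0 : 0 ≤ (2 : ℝ) ^ (-κ) := by positivity
  have hq1 : (2 : ℝ) ^ (-κ) < 1 := Real.rpow_lt_one_of_one_lt_of_neg (by norm_num) (by linarith)
  have hsum : HasSum (fun m : ℕ => K0 * (Λ ^ (-κ) * (2 ^ (-κ)) ^ m))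
      (K0 * (Λ ^ (-κ) * (1 - 2 ^ (-κ))⁻¹)) :=
    ((hasSum_geometric_of_lt_one hq0 hq1).mul_left _).mul_left _
  calc volume ({t | ∃ c ∈ C, ∃ k, Ev c k t} ∩ closedBall 0 R)
      ≤ volume (⋃ m : ℕ, ({t | ∃ c ∈ C, ∃ k, Ev c k t ∧ L c k t ∈
        Icc (Λ * 2 ^ m) (2 * (Λ * 2 ^ m))} ∩ closedBall 0 R)) := measure_mono hsub
    _ ≤ ∑' m : ℕ, volume ({t | ∃ c ∈ C, ∃ k, Ev c k t ∧ L c k t ∈
        Icc (Λ * 2 ^ m) (2 * (Λ * 2 ^ m))} ∩ closedBall 0 R) := measure_iUnion_le _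
    _ ≤ ∑' m : ℕ, ENNReal.ofReal (K0 * (Λ ^ (-κ) * (2 ^ (-κ)) ^ m)) :=
        ENNReal.tsum_le_tsum hscale
    _ = ENNReal.ofReal (∑' m : ℕ, K0 * (Λ ^ (-κ) * (2 ^ (-κ)) ^ m)) :=
        (ENNReal.ofReal_tsum_of_nonneg (fun m => by positivity) hsum.summable).symm
    _ = ENNReal.ofReal (K0 * (Λ ^ (-κ) / (1 - 2 ^ (-κ)))) := by
        rw [hsum.tsum_eq, div_eq_mul_inv]

end Pool.H70.SF
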