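import Pool.Agent.H70.SF.CR
import Pool.Agent.H70.SF.GR
import Pool.Agent.H70.SF.GA

/-!
Module EV: the measure estimate for the event of the deterministic part, along one line `X + t N_e X`.

`EvD M K γ η Λ e X c k`: `c` critical, `Lm ≥ Λ`, `SS ≤ M`, `‖om‖ ≥ Ph / M`, `Ph ≥ Lm^(1-η)`, `‖al‖ ≤ Lm^(-γ)`.
`FRp d M K`: the freezing property (proved by helper55).
`ev_line`: the outer area of the `t`, `|t| ≤ R`, such that `X_t` is regular and has an event.
-/

set_option autoImplicit false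

open MeasureTheory Metric Set
open scoped ENNReal

namespace Pool.H70.SF

variable {d : ℕ}

/-- the event -/
structure EvD (M K γ η Λ : ℝ) (e : ℂ × ℂ) (X : CV d) (c : ℂ × ℂ) (k : ℕ) : Prop where
  unit : IsU c
  crit : JJ X c = 0
  kpos : 1 ≤ k
  nz : ∀ l < k, al X c l ≠ 0
  sum : SS X c k ≤ M
  adm : Ph X c k / M ≤ ‖om e X c k‖
  scl : Λ ≤ Lm K X c k
  size : (Lm K X c k) ^ (1 - η) ≤ Ph X c k
  bad : ‖al X c k‖ ≤ (Lm K X c k) ^ (-γ)

/-- the freezing property -/
def FRp (d : ℕ) (M K : ℝ) : Prop :=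
  ∀ (X : CV d) (e c : ℂ × ℂ) (k : ℕ), Rg M X → n2 e ≤ 2 → IsU c → 1 ≤ k →
    (∀ l < k, al X c l ≠ 0) → SS X c k ≤ M →
    ∀ t t' : ℂ, ‖t‖ * Lm K X c k ≤ 1 → ‖t'‖ * Lm K X c k ≤ 1 → ∀ l ≤ k,
      Ph (Tt e t X) c l ≤ 4 / 3 * Ph X c l ∧
      |‖om e (Tt e t X) c l‖ / Ph (Tt e t X) c l - ‖om e X c l‖ / Ph X c l| ≤ 1 / (4 * M) ∧
      ‖t - t'‖ * ((‖om e X c l‖ - Ph X c l / (4 * M)) / 2) ≤
        ‖wd (ob (Tt e t X) c l) (ob (Tt e t' X) c l)‖

/-- phase invariance -/
theorem EvD.smul (hd : 1 ≤ d) {M K γ η Λ : ℝ} {e : ℂ × ℂ} {X : CV d} {c : ℂ × ℂ} {k : ℕ}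
    {z : ℂ} (hz : ‖z‖ = 1) (h : EvD M K γ η Λ e X (z • c) k) : EvD M K γ η Λ e X c k := by
  have hz0 : z ≠ 0 := by
    rintro rfl
    simp at hz
  refine ⟨?_, ?_, h.kpos, ?_, ?_, ?_, ?_, ?_, ?_⟩
  · have h1 := h.unit
    unfold IsU at *
    rwa [n2_smul_unit hz] at h1
  · have h1 := h.crit
    rw [JJ_smul] at h1
    have : (z ^ (d - 1)) ^ 2 ≠ 0 := by positivity
    exact (mul_eq_zero.1 h1).resolve_left this
  · intro l hl
    have h1 := h.nz l hl
    rw [← norm_ne_zero_iff] at h1 ⊢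
    rwa [norm_al_smul X hz] at h1
  · have h1 := h.sum
    rwa [SS_smul X hz] at h1
  · have h1 := h.adm
    rwa [Ph_smul X hz, norm_om_smul hd e X hz] at h1
  · have h1 := h.scl
    rwa [Lm_smul K X hz] at h1
  · have h1 := h.size
    rwa [Lm_smul K X hz, Ph_smul X hz] at h1
  · have h1 := h.bad
    rwa [Lm_smul K X hz, norm_al_smul X hz] at h1

/-! ### Unit vectors with the chordal distance -/

/-- unit vectors -/
structure UV : Type where
  /-- the vector -/
  val : ℂ × ℂ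
  prop : IsU val

noncomputable instance : PseudoMetricSpace UV where
  dist u v := ‖wd u.val v.val‖
  dist_self u := by
    have : wd u.val u.val = 0 := by
      unfold wd
      ring
    rw [this, norm_zero]
  dist_comm u v := by
    have : wd u.val v.val = -wd v.val u.val := by
      unfold wd
      ring
    rw [this, norm_neg]
  dist_triangle u v w := by
    refine (wd_tri u.prop v.prop w.prop).trans (le_of_eq ?_)
    have : wd w.val v.val = -wd v.val w.val := by
      unfold wd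
      ring
    rw [this, norm_neg]

lemma UV_dist (u v : UV) : dist u v = ‖wd u.val v.val‖ := rfl

open Classical in
/-- normal form of a vector -/
noncomputable def toUV (u : ℂ × ℂ) : UV := if h : IsU u then ⟨u, h⟩ else ⟨(1, 0), by simp [IsU, n2]⟩

lemma toUV_val {u : ℂ × ℂ} (h : IsU u) : (toUV u).val = u := by
  unfold toUV
  rw [dif_pos h]

/-! ### Nondegeneracy along the line -/

lemma FF_Tt (e : ℂ × ℂ) (t : ℂ) (X : CV d) (u : ℂ × ℂ) :
    FF (Tt e t X) u = FF X u + t • Nd e (FF X u) := by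
  unfold FF
  rw [Tt_fst, Tt_snd]
  simp only [hev_lin]
  unfold Nd wd
  ext
  · simp only [Prod.fst_add, Prod.smul_fst, smul_eq_mul]
    ring
  · simp only [Prod.snd_add, Prod.smul_snd, smul_eq_mul]
    ring

lemma n2_pos_iff (v : ℂ × ℂ) : 0 < n2 v ↔ v ≠ 0 := by
  constructor
  · rintro h rfl
    simp [n2] at h
  · intro h
    by_contra h0
    apply h
    have h1 : n2 v = 0 := le_antisymm (not_lt.1 h0) (n2_nonneg v)
    unfold n2 at h1
    have h2 : ‖v.1‖ ^ 2 = 0 := by nlinarith [sq_nonneg ‖v.1‖, sq_nonneg ‖v.2‖]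
    have h3 : ‖v.2‖ ^ 2 = 0 := by nlinarith [sq_nonneg ‖v.1‖, sq_nonneg ‖v.2‖]
    ext
    · simpa using h2
    · simpa using h3

/-- no common zero -/
def ND (X : CV d) : Prop := ∀ u, IsU u → 0 < n2 (FF X u)

lemma ND.Tt {X : CV d} (h : ND X) (e : ℂ × ℂ) (t : ℂ) : ND (Tt e t X) := by
  intro u hu
  rw [n2_pos_iff]
  intro h0
  have h1 := FF_Tt e (-t) (Pool.H70.SF.Tt e t X) u
  rw [h0, Tt_Tt, neg_add_cancel, Tt_zero] at h1
  have h2 := (n2_pos_iff _).1 (h u hu)
  apply h2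
  rw [h1]
  unfold Nd wd
  simp

lemma ND.ob {X : CV d} (h : ND X) {c : ℂ × ℂ} (hc : IsU c) (l : ℕ) : IsU (ob X c l) := by
  induction l with
  | zero => exact n2_nx X (h _ hc)
  | succ l ih => exact n2_nx X (h _ ih)

lemma Rg.nd {M : ℝ} (hM : 0 < M) {X : CV d} (h : Rg M X) : ND X := fun _ hu => h.pos hM hu

/-- the measure estimate on one line -/
theorem ev_line (hd : 1 ≤ d) {M K γ η Λ R : ℝ} (hM : 1 ≤ M) (hK : M ^ 2 ≤ K) (hfr : FRp d M K)
    (hΛ : 1 ≤ Λ) (hη0 : 0 ≤ η) (hη1 : η ≤ 1) (hγ : 0 ≤ γ) (hγη : 3 * η < 2 * γ)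
    (hR : 1 ≤ 4 * Λ * R) (e : ℂ × ℂ) (he : n2 e ≤ 2) (X : CV d) :
    volume ({t : ℂ | Rg M (Tt e t X) ∧ ∃ c k, EvD M K γ η Λ e (Tt e t X) c k} ∩ closedBall 0 R) ≤
      ENNReal.ofReal (193600 * Real.pi * ((2 * d) * (2 * d)) * (M * M) ^ 2 * R ^ 2 *
        (Λ ^ (-(2 * γ - 3 * η)) / (1 - 2 ^ (-(2 * γ - 3 * η))))) := by
  classical
  have hM0 : 0 < M := by linarith
  have hK0 : 0 < K := lt_of_lt_of_le (by positivity) hK
  by_cases hex : ∃ t : ℂ, Rg M (Tt e t X) ∧ ∃ c k, EvD M K γ η Λ e (Tt e t X) c k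
  swap
  · have : {t : ℂ | Rg M (Tt e t X) ∧ ∃ c k, EvD M K γ η Λ e (Tt e t X) c k} = ∅ := by
      rw [Set.eq_empty_iff_forall_notMem]
      intro t ht
      exact hex ⟨t, ht⟩
    rw [this]
    simp
  obtain ⟨t1, hrg1, c1, k1, hev1⟩ := hex
  -- the critical points
  have hJne : ∃ u, JJ X u ≠ 0 := by
    have h0 := hev1.nz 0 (by have := hev1.kpos; omega)
    refine ⟨ob (Tt e t1 X) c1 0, fun h => h0 ?_⟩
    unfold al aa
    rw [JJ_Tt, h]
    simp
  obtain ⟨C, hCcard, hCu, hCr⟩ := crit_finite hd X hJne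
  have hndall : ∀ t, ND (Tt e t X) := by
    intro t
    have h1 := (hrg1.nd hM0).Tt e (t - t1)
    rw [Tt_Tt] at h1
    have : t - t1 + t1 = t := by ring
    rwa [this] at h1
  have hobU : ∀ t c, IsU c → ∀ l, IsU (ob (Tt e t X) c l) := fun t c hc l => (hndall t).ob hc l
  -- basic facts at an event
  have hPhpos : ∀ t c k, EvD M K γ η Λ e (Tt e t X) c k → ∀ l ≤ k, 0 < Ph (Tt e t X) c l := by
    intro t c k hev l hl
    unfold Ph
    refine Finset.prod_pos fun i hi => ?_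
    rw [Finset.mem_range] at hi
    exact norm_pos_iff.2 (hev.nz i (by omega))
  have hPhM : ∀ t c k, EvD M K γ η Λ e (Tt e t X) c k → ∀ l ≤ k, M⁻¹ ≤ Ph (Tt e t X) c l := by
    intro t c k hev l hl
    have h1 : (Ph (Tt e t X) c l)⁻¹ ≤ M := by
      refine le_trans ?_ hev.sum
      unfold SS
      exact Finset.single_le_sum (f := fun l => (Ph (Tt e t X) c l)⁻¹)
        (fun i hi => inv_nonneg.2 (by unfold Ph; positivity)) (Finset.mem_range.2 (by omega))
    exact inv_le_of_inv_le₀ (hPhpos t c k hev l hl) h1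
  have hmain := count_all (X := UV) C (fun c => toUV c) (fun c k t => toUV (ob (Tt e t X) c k))
    (fun c k t => Ph (Tt e t X) c k) (fun c k t => ‖al (Tt e t X) c k‖)
    (fun c k t => ‖om e (Tt e t X) c k‖ / Ph (Tt e t X) c k)
    (fun c k t => Lm K (Tt e t X) c k)
    (fun c k t => Rg M (Tt e t X) ∧ EvD M K γ η Λ e (Tt e t X) c k)
    (M := M) (τ0 := M⁻¹) (γ := γ) (η := η) (Λ := Λ) (R := R) hM0.le (by positivity) hΛ hη0 hη1 hγ
    hγη (fun c k t => by unfold Ph; positivity)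
    (by
      rintro c hc k t ⟨hrg, hev⟩
      refine ⟨hev.scl, ?_⟩
      unfold Lm
      have h1 : ∀ l ∈ Finset.range k, (1 : ℝ) / (M ^ 2) ≤ Ph (Tt e t X) c l / ‖al (Tt e t X) c l‖ := by
        intro l hl
        rw [Finset.mem_range] at hl
        have h2 := hPhM t c k hev l hl.le
        have h3 : ‖al (Tt e t X) c l‖ ≤ M := hrg.up _ (hobU t c hev.unit l)
        have h4 : 0 < ‖al (Tt e t X) c l‖ := norm_pos_iff.2 (hev.nz l hl)
        calc (1 : ℝ) / (M ^ 2) = M⁻¹ / M := by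
              field_simp
          _ ≤ Ph (Tt e t X) c l / ‖al (Tt e t X) c l‖ :=
              div_le_div₀ (hPhpos t c k hev l hl.le).le h2 h4 h3
      have h5 := Finset.sum_le_sum h1
      rw [Finset.sum_const, Finset.card_range, nsmul_eq_mul] at h5
      have h6 : (k : ℝ) ≤ K * ((k : ℝ) * (1 / M ^ 2)) := by
        have : K * ((k : ℝ) * (1 / M ^ 2)) = (k : ℝ) * (K / M ^ 2) := by ring
        rw [this]
        have h7 : 1 ≤ K / M ^ 2 := by
          rw [one_le_div (by positivity)]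
          exact hK
        nlinarith [(Nat.cast_nonneg k : (0 : ℝ) ≤ k)]
      have h8 := mul_le_mul_of_nonneg_left h5 hK0.le
      linarith)
    (fun c hc k t h => h.2.size) (fun c hc k t h => h.2.bad)
    (by
      rintro c hc k t ⟨hrg, hev⟩
      rw [le_div_iff₀ (hPhpos t c k hev k le_rfl), inv_mul_eq_div]
      exact hev.adm)
    (by
      rintro c hc k t ⟨hrg, hev⟩
      have hu := hobU t c hev.unit k
      obtain ⟨c2, hc2u, hc2J, hc2d⟩ := hrg.crit _ hu
      rw [JJ_Tt] at hc2J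
      obtain ⟨c', hc', z, hz, hzc⟩ := hCr c2 hc2u hc2J
      refine ⟨c', hc', ?_⟩
      rw [UV_dist, toUV_val hu, toUV_val (hCu c' hc')]
      have h1 : wd (ob (Tt e t X) c k) c2 = z * wd (ob (Tt e t X) c k) c' := by
        rw [hzc]
        unfold wd
        simp only [Prod.smul_fst, Prod.smul_snd, smul_eq_mul]
        ring
      rw [h1, norm_mul, hz, one_mul] at hc2d
      exact hc2d)
    (by
      rintro c hc k t ⟨hrg, hev⟩
      unfold Lm
      rw [Finset.mul_sum]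
      have h1 : ∑ l ∈ Finset.range k, Ph (Tt e t X) c l ≤
          ∑ l ∈ Finset.range k, K * (Ph (Tt e t X) c l / ‖al (Tt e t X) c l‖) := by
        refine Finset.sum_le_sum fun l hl => ?_
        rw [Finset.mem_range] at hl
        have h3 : ‖al (Tt e t X) c l‖ ≤ M := hrg.up _ (hobU t c hev.unit l)
        have h4 : 0 < ‖al (Tt e t X) c l‖ := norm_pos_iff.2 (hev.nz l hl)
        have h5 := hPhpos t c k hev l hl.le
        rw [← mul_div_assoc, le_div_iff₀ h4]
        have h6 : ‖al (Tt e t X) c l‖ ≤ K := by nlinarith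
        nlinarith
      linarith)
    (by
      rintro c hc k t ⟨hrg, hev⟩ t' ht' l hl
      have hb : ∀ s : ℂ, Tt e (s - t) (Tt e t X) = Tt e s X := by
        intro s
        rw [Tt_Tt]
        congr 1
        ring
      have h0 := hfr (Tt e t X) e c k hrg he hev.unit hev.kpos hev.nz hev.sum
      refine ⟨?_, ?_, fun t'' ht'' => ?_⟩
      · have h1 := (h0 (t' - t) (t' - t) ht' ht' l hl).1
        rwa [hb] at h1
      · have h1 := (abs_le.1 (h0 (t' - t) (t' - t) ht' ht' l hl).2.1).2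
        rw [hb] at h1
        have : M⁻¹ / 4 = 1 / (4 * M) := by
          field_simp
        rw [this]
        linarith
      · have h1 := (h0 (t' - t) (t'' - t) ht' ht'' l hl).2.2
        rw [hb, hb] at h1
        rw [UV_dist, toUV_val (hobU t' c hev.unit l), toUV_val (hobU t'' c hev.unit l)]
        refine le_trans (le_of_eq ?_) h1
        have hp := hPhpos t c k hev l hl
        have e1 : t' - t - (t'' - t) = t' - t'' := by ring
        rw [e1]
        congr 1
        field_simp) hR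
  refine (measure_mono ?_).trans (hmain.trans (ENNReal.ofReal_le_ofReal ?_))
  · rintro t ⟨⟨hrg, c, k, hev⟩, ht⟩
    refine ⟨?_, ht⟩
    have hJ := hev.crit
    rw [JJ_Tt] at hJ
    obtain ⟨c', hc', z, hz, hzc⟩ := hCr c hev.unit hJ
    rw [hzc] at hev
    exact ⟨c', hc', k, hrg, hev.smul hd hz⟩
  · have h1 : (C.card : ℝ) ≤ 2 * d := by exact_mod_cast hCcard
    have h2 : M / M⁻¹ = M * M := by rw [div_inv_eq_mul]
    rw [h2]
    have h3 : 0 < 1 - (2 : ℝ) ^ (-(2 * γ - 3 * η)) := by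
      have : (2 : ℝ) ^ (-(2 * γ - 3 * η)) < 1 :=
        Real.rpow_lt_one_of_one_lt_of_neg (by norm_num) (by linarith)
      linarith
    have h4 : 0 < Λ := by linarith
    gcongr

end Pool.H70.SF
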