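import Pool.Agent.H70.SF.EV
import Pool.Agent.H91.SF.Defs
import Pool.Agent.H55.SF.FR
import Pool.Agent.H47.SF.Sph

/-!
# Smoothed Fatou: the family `t ↦ Tt e t X` as an abstract family `Fd UU` (module FDX)

`UU = {u // IsU u}`. `fd e X : Fd UU`: `F t = fS (Tt e t X)`, `a t u = ‖aa (Tt e t X) u‖`, `D u v = ‖wd u v‖`,
`T t c k = ‖om e (Tt e t X) c k‖ / Ph (Tt e t X) c k` (kept constant after the first critical point of the orbit).
Dictionary: `orb_fd`, `ph_fd`, `cl_fd`, `ss_fd`, `lm_fd`, `T_fd`.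
`FRp_of`: the freezing property from helper55's FR.
-/

set_option autoImplicit false

open Finset Metric Set

namespace Pool.H70.SF

open Pool.Agent.H91.SF
open Pool.Agent.H47.SF (fS)

variable {d : ℕ}

/-- unit vectors -/
abbrev UU : Type := {u : ℂ × ℂ // IsU u}

/-- the normalized parameter derivative, constant after the first critical point -/
noncomputable def TT (e : ℂ × ℂ) (X : CV d) (c : ℂ × ℂ) : ℕ → ℝ
  | 0 => ‖om e X c 0‖
  | k + 1 => if Ph X c (k + 1) = 0 then TT e X c k else ‖om e X c (k + 1)‖ / Ph X c (k + 1)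

/-- the family -/
noncomputable def fd (e : ℂ × ℂ) (X : CV d) : Fd UU where
  F t := fS (Tt e t X)
  a t u := ‖aa (Tt e t X) u.val‖
  D u v := ‖wd u.val v.val‖
  T t c k := TT e (Tt e t X) c.val k

theorem fS_val {X : CV d} (h : ND X) (u : UU) : (fS X u).val = nx X u.val := by
  have h1 : 0 < Pool.Agent.H47.SF.nuF X u.val := Real.sqrt_pos.2 (h _ u.prop)
  unfold fS
  rw [dif_pos h1]

theorem ND_all {X : CV d} (h : ND X) (e : ℂ × ℂ) (t : ℂ) : ND (Tt e t X) := h.Tt e t

variable {X : CV d} (h : ND X) (e : ℂ × ℂ)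

include h in
theorem orb_fd (t : ℂ) (c : UU) (l : ℕ) :
    (orb (fd e X) t ((fd e X).F t c) l).val = ob (Tt e t X) c.val l := by
  induction l with
  | zero =>
    show (fS (Tt e t X) c).val = _
    rw [fS_val (ND_all h e t)]
    rfl
  | succ l ih =>
    unfold orb at ih ⊢
    rw [Function.iterate_succ_apply']
    show (fS (Tt e t X) _).val = _
    rw [fS_val (ND_all h e t), ih]
    rfl

include h in
theorem a_fd (t : ℂ) (c : UU) (l : ℕ) :
    (fd e X).a t (orb (fd e X) t ((fd e X).F t c) l) = ‖al (Tt e t X) c.val l‖ := by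
  show ‖aa (Tt e t X) (orb (fd e X) t ((fd e X).F t c) l).val‖ = _
  rw [orb_fd h e t c l]
  rfl

include h in
theorem ph_fd (t : ℂ) (c : UU) (k : ℕ) :
    ph (fd e X) t ((fd e X).F t c) k = Ph (Tt e t X) c.val k := by
  unfold ph Ph
  exact Finset.prod_congr rfl fun l _ => a_fd h e t c l

include h in
theorem cl_fd (t : ℂ) (c : UU) (k : ℕ) :
    cl (fd e X) t ((fd e X).F t c) k =
      ∑ l ∈ Finset.range k, Ph (Tt e t X) c.val l / ‖al (Tt e t X) c.val l‖ := by
  unfold cl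
  refine Finset.sum_congr rfl fun l _ => ?_
  rw [ph_fd h e t c l, a_fd h e t c l]

include h in
theorem lm_fd (K : ℝ) (t : ℂ) (c : UU) (k : ℕ) :
    lm (fd e X) K t ((fd e X).F t c) k = Lm K (Tt e t X) c.val k := by
  unfold lm Lm
  rw [cl_fd h e t c k]

include h in
theorem ss_fd (t : ℂ) (c : UU) (k : ℕ) :
    1 + ss (fd e X) t ((fd e X).F t c) k = SS (Tt e t X) c.val k := by
  unfold ss SS
  rw [Finset.sum_range_succ']
  have h0 : Ph (Tt e t X) c.val 0 = 1 := by simp [Ph]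
  rw [h0, inv_one, add_comm]
  congr 1
  exact Finset.sum_congr rfl fun l _ => by rw [ph_fd h e t c (l + 1)]

include h in
theorem pos_fd (t : ℂ) (c : UU) (k : ℕ) :
    pos (fd e X) t ((fd e X).F t c) k ↔ ∀ l < k, al (Tt e t X) c.val l ≠ 0 := by
  unfold pos
  constructor
  · intro h1 l hl
    have h2 := h1 l hl
    rw [a_fd h e t c l] at h2
    exact norm_pos_iff.1 h2
  · intro h1 l hl
    rw [a_fd h e t c l]
    exact norm_pos_iff.2 (h1 l hl)

theorem TT_eq (X : CV d) (c : ℂ × ℂ) {k : ℕ} (hk : Ph X c k ≠ 0) :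
    TT e X c k = ‖om e X c k‖ / Ph X c k := by
  cases k with
  | zero =>
    have h0 : Ph X c 0 = 1 := by simp [Ph]
    rw [h0, div_one]
    rfl
  | succ k =>
    show (if Ph X c (k + 1) = 0 then TT e X c k else _) = _
    rw [if_neg hk]

theorem T_fd (t : ℂ) (c : UU) {k : ℕ} (hk : Ph (Tt e t X) c.val k ≠ 0) :
    (fd e X).T t c k = ‖om e (Tt e t X) c.val k‖ / Ph (Tt e t X) c.val k := TT_eq e _ _ hk

/-- the freezing property, from FR -/
theorem FRp_of {M K : ℝ} (h2 : 2 ≤ d) (hdM : (d : ℝ) ≤ M) (h8 : 8 ≤ M) (hK : M ^ 80 ≤ K) :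
    FRp d M K := by
  intro X e c k hX he hc hk ha hS t t' ht ht' l hl
  obtain ⟨⟨-, f1⟩, -, f2, -, f3⟩ := FR (hX.hy h2 hdM h8) he hc hk ha hS hK hl ht
  refine ⟨f1, f2, ?_⟩
  have h1 := (f3 t' ht').1
  rwa [mul_div_assoc] at h1

end Pool.H70.SF
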