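import Pool.Agent.H70.SF.Def

/-!
Module AV: averaging of a measure along a one parameter group (Tonelli).
-/

set_option autoImplicit false

open MeasureTheory Metric Set
open scoped ENNReal

namespace Pool.H70.SF

theorem averaging {V : Type*} [MeasurableSpace V] (ν : Measure V) [SFinite ν] (T : ℂ → V → V)
    (hT : Measurable (fun x : ℂ × V => T x.1 x.2)) {S : Set V} (hS : MeasurableSet S) {r : ℝ}
    (hr : 0 < r) (hq : ∀ t, ‖t‖ ≤ r → ν S ≤ 2 * ν (T t ⁻¹' S)) {p : ℝ≥0∞}
    (hp : ∀ X, volume {t : ℂ | ‖t‖ ≤ r ∧ T t X ∈ S} ≤ p * volume (closedBall (0 : ℂ) r)) :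
    ν S ≤ 2 * p * ν univ := by
  set B : Set ℂ := closedBall (0 : ℂ) r with hB
  have hBm : MeasurableSet B := measurableSet_closedBall
  have hB0 : volume B ≠ 0 := (measure_closedBall_pos volume (0 : ℂ) hr).ne'
  have hBt : volume B ≠ ∞ := measure_closedBall_lt_top.ne
  have hmem : ∀ t : ℂ, t ∈ B ↔ ‖t‖ ≤ r := fun t => by simp [hB]
  set W : Set (ℂ × V) := {x | x.1 ∈ B ∧ T x.1 x.2 ∈ S} with hW
  have hWm : MeasurableSet W := (hBm.preimage measurable_fst).inter (hT hS)
  -- first computation
  have h1 : (volume.prod ν) W ≤ p * volume B * ν univ := by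
    rw [Measure.prod_apply_symm hWm]
    calc ∫⁻ X, volume ((fun t => (t, X)) ⁻¹' W) ∂ν ≤ ∫⁻ _, p * volume B ∂ν := by
          refine lintegral_mono fun X => ?_
          have : (fun t => (t, X)) ⁻¹' W = {t : ℂ | ‖t‖ ≤ r ∧ T t X ∈ S} := by
            ext t
            simp [hW, hmem]
          simp only [this]
          exact hp X
      _ = p * volume B * ν univ := by rw [lintegral_const]
  -- second computation
  have h2 : volume B * ν S ≤ 2 * (volume.prod ν) W := by
    rw [Measure.prod_apply hWm, ← lintegral_const_mul' _ _ (by norm_num)]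
    calc volume B * ν S = ∫⁻ t in B, ν S ∂volume := by
          rw [setLIntegral_const, mul_comm]
      _ ≤ ∫⁻ t in B, 2 * ν (Prod.mk t ⁻¹' W) ∂volume := by
          refine setLIntegral_mono' hBm fun t ht => ?_
          have : Prod.mk t ⁻¹' W = T t ⁻¹' S := by
            ext X
            simp [hW, ht]
          rw [this]
          exact hq t ((hmem t).1 ht)
      _ ≤ ∫⁻ t, 2 * ν (Prod.mk t ⁻¹' W) ∂volume := setLIntegral_le_lintegral _ _
  have h3 : volume B * ν S ≤ volume B * (2 * p * ν univ) := by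
    calc volume B * ν S ≤ 2 * (volume.prod ν) W := h2
      _ ≤ 2 * (p * volume B * ν univ) := by gcongr
      _ = volume B * (2 * p * ν univ) := by ring
  exact (ENNReal.mul_le_mul_iff_right hB0 hBt).1 h3

end Pool.H70.SF
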