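import Pool.Agent.H70.SF.FDX
import Pool.Agent.H55.SF.GeoU

/-!
# Smoothed Fatou: the basic properties `Bas` of the family `fd e X` (module BAS)

If `X` is regular (`Rg M0 X`), then for all large `M` and `K` the structure `Bas` of END holds near `t = 0`.
-/

set_option autoImplicit false

open Finset Metric Set

namespace Pool.H70.SF

open Pool.Agent.H91.SF

variable {d : ℕ}

theorem Rg.mono {M M' : ℝ} (hM : 0 < M) (hMM : M ≤ M') {X : CV d} (h : Rg M X) : Rg M' X := by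
  have hM' : 0 < M' := hM.trans_le hMM
  refine ⟨h.nrm.trans (by gcongr), fun u hu => le_trans ?_ (h.low u hu),
    fun u hu => (h.up u hu).trans hMM, fun u hu => ?_⟩
  · have : M'⁻¹ ≤ M⁻¹ := inv_anti₀ hM hMM
    gcongr
  · obtain ⟨c, h1, h2, h3⟩ := h.crit u hu
    exact ⟨c, h1, h2, h3.trans (mul_le_mul_of_nonneg_right hMM (norm_nonneg _))⟩

theorem n2_Nd_le {e : ℂ × ℂ} (he : n2 e ≤ 2) (v : ℂ × ℂ) : n2 (Nd e v) ≤ 4 * n2 v := by
  unfold Nd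
  rw [n2_smul]
  have h1 := G55.wd_cs e v
  have h2 := n2_nonneg v
  have h3 := n2_nonneg e
  calc ‖wd e v‖ ^ 2 * n2 e ≤ (n2 e * n2 v) * n2 e := mul_le_mul_of_nonneg_right h1 h3
    _ ≤ (2 * n2 v) * 2 := by gcongr
    _ = 4 * n2 v := by ring

theorem sq_add_le (x y : ℂ) : ‖x + y‖ ^ 2 ≤ 5 / 4 * ‖x‖ ^ 2 + 5 * ‖y‖ ^ 2 := by
  have h1 : ‖x + y‖ ≤ ‖x‖ + ‖y‖ := norm_add_le x y
  have h2 : ‖x + y‖ ^ 2 ≤ (‖x‖ + ‖y‖) ^ 2 := pow_le_pow_left₀ (norm_nonneg _) h1 2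
  nlinarith [sq_nonneg (‖x‖ - 4 * ‖y‖)]

theorem sq_add_ge (x y : ℂ) : 4 / 5 * ‖x‖ ^ 2 - 4 * ‖y‖ ^ 2 ≤ ‖x + y‖ ^ 2 := by
  have h1 := sq_add_le (x + y) (-y)
  have h2 : x + y + -y = x := by ring
  rw [h2, norm_neg] at h1
  linarith

theorem n2_add_le (v w : ℂ × ℂ) : n2 (v + w) ≤ 5 / 4 * n2 v + 5 * n2 w := by
  unfold n2
  have h1 := sq_add_le v.1 w.1
  have h2 := sq_add_le v.2 w.2
  simp only [Prod.fst_add, Prod.snd_add]
  linarith

theorem n2_add_ge (v w : ℂ × ℂ) : 4 / 5 * n2 v - 4 * n2 w ≤ n2 (v + w) := by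
  unfold n2
  have h1 := sq_add_ge v.1 w.1
  have h2 := sq_add_ge v.2 w.2
  simp only [Prod.fst_add, Prod.snd_add]
  linarith

theorem FF_t_bd {e : ℂ × ℂ} (he : n2 e ≤ 2) {t : ℂ} (ht : ‖t‖ ≤ 1 / 8) (X : CV d) (u : ℂ × ℂ) :
    n2 (FF X u) / 2 ≤ n2 (FF (Tt e t X) u) ∧ n2 (FF (Tt e t X) u) ≤ 2 * n2 (FF X u) := by
  rw [FF_Tt]
  have h1 : n2 (t • Nd e (FF X u)) ≤ 1 / 16 * n2 (FF X u) := by
    rw [n2_smul]
    have h2 := n2_Nd_le he (FF X u)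
    have h3 : ‖t‖ ^ 2 ≤ (1 / 8) ^ 2 := pow_le_pow_left₀ (norm_nonneg _) ht 2
    have h4 := n2_nonneg (FF X u)
    calc ‖t‖ ^ 2 * n2 (Nd e (FF X u)) ≤ (1 / 8) ^ 2 * (4 * n2 (FF X u)) := by
          refine mul_le_mul h3 h2 (n2_nonneg _) (by norm_num)
      _ = 1 / 16 * n2 (FF X u) := by ring
  have h2 := n2_add_le (FF X u) (t • Nd e (FF X u))
  have h3 := n2_add_ge (FF X u) (t • Nd e (FF X u))
  have h4 := n2_nonneg (FF X u)
  constructor <;> linarith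

theorem aa_t_bd (hd : 1 ≤ d) {e : ℂ × ℂ} (he : n2 e ≤ 2) {t : ℂ} (ht : ‖t‖ ≤ 1 / 8) {X : CV d}
    (h : ND X) {u : ℂ × ℂ} (hu : IsU u) :
    ‖aa X u‖ ≤ 2 * ‖aa (Tt e t X) u‖ ∧ ‖aa (Tt e t X) u‖ ≤ 2 * ‖aa X u‖ := by
  obtain ⟨h1, h2⟩ := FF_t_bd he ht X u
  have h0 := h u hu
  have h0' := h.Tt e t u hu
  have hd0 : (0 : ℝ) < d := by exact_mod_cast hd
  unfold aa
  rw [JJ_Tt, norm_div, norm_div, norm_mul, norm_mul, Complex.norm_natCast, Complex.norm_real,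
    Complex.norm_real, Real.norm_of_nonneg h0.le, Real.norm_of_nonneg h0'.le]
  have hJ := norm_nonneg (JJ X u)
  constructor
  · rw [← mul_div_assoc, div_le_div_iff₀ (by positivity) (by positivity)]
    have : ‖JJ X u‖ * (d * n2 (FF (Tt e t X) u)) ≤ ‖JJ X u‖ * (d * (2 * n2 (FF X u))) := by
      gcongr
    linarith
  · rw [← mul_div_assoc, div_le_div_iff₀ (by positivity) (by positivity)]
    have : ‖JJ X u‖ * (d * (n2 (FF X u) / 2)) ≤ ‖JJ X u‖ * (d * n2 (FF (Tt e t X) u)) := by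
      gcongr
    linarith

/-- regular maps stay regular -/
theorem Rg.move (hd : 1 ≤ d) {M : ℝ} (hM : 0 < M) {X : CV d} (h : Rg M X) {e : ℂ × ℂ}
    (he : n2 e ≤ 2) {t : ℂ} (ht : ‖t‖ ≤ 1 / 8) : Rg (2 * M) (Tt e t X) := by
  have hnd := h.nd hM
  refine ⟨?_, fun u hu => ?_, fun u hu => ?_, fun u hu => ?_⟩
  · have h1 : Tt e t X = X - (-t) • NX e X := by
      unfold Tt
      rw [neg_smul, sub_neg_eq_add]
    rw [h1]
    have h2 := BN2_sub_le X ((-t) • NX e X) (l := 1) one_pos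
    rw [BN2_smul, norm_neg] at h2
    have h3 := BN2_NX e he X
    have h4 := BN2_nonneg (NX e X)
    have h5 := h.nrm
    have h6 : ‖t‖ ^ 2 ≤ (1 / 8) ^ 2 := pow_le_pow_left₀ (norm_nonneg _) ht 2
    have h7 : ‖t‖ ^ 2 * BN2 (NX e X) ≤ (1 / 8) ^ 2 * (4 * BN2 X) :=
      mul_le_mul h6 h3 h4 (by norm_num)
    have h8 := BN2_nonneg X
    nlinarith
  · refine le_trans ?_ (FF_t_bd he ht X u).1
    have h1 := h.low u hu
    have h2 : (2 * M)⁻¹ ^ 2 = (M⁻¹) ^ 2 / 4 := by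
      rw [mul_inv, mul_pow]
      norm_num
      ring
    rw [h2]
    have h3 : 0 ≤ (M⁻¹) ^ 2 := by positivity
    linarith
  · have h1 := (aa_t_bd hd he ht hnd hu).2
    have h2 := h.up u hu
    linarith
  · obtain ⟨c, h1, h2, h3⟩ := h.crit u hu
    refine ⟨c, h1, by rw [JJ_Tt, h2], ?_⟩
    have h4 := (aa_t_bd hd he ht hnd hu).1
    calc ‖wd u c‖ ≤ M * ‖aa X u‖ := h3
      _ ≤ M * (2 * ‖aa (Tt e t X) u‖) := mul_le_mul_of_nonneg_left h4 hM.le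
      _ = 2 * M * ‖aa (Tt e t X) u‖ := by ring

/-- the critical points -/
theorem crit_set (hd : 1 ≤ d) (X : CV d) (hne : ∃ u, JJ X u ≠ 0) :
    ∃ C : Finset UU, C.card ≤ 2 * d ∧ (∀ c ∈ C, JJ X c.val = 0) ∧
      ∀ c, IsU c → JJ X c = 0 → ∃ c' ∈ C, ∃ z : ℂ, ‖z‖ = 1 ∧ c = z • c'.val := by
  classical
  obtain ⟨C, h1, h2, h3⟩ := crit_finite hd X hne
  set f : ℂ × ℂ → UU := fun u => if hu : IsU u then ⟨u, hu⟩ else ⟨(1, 0), by simp [IsU, n2]⟩ with hf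
  have hfv : ∀ {u : ℂ × ℂ}, IsU u → (f u).val = u := by
    intro u hu
    rw [hf]
    simp only
    rw [dif_pos hu]
  refine ⟨(C.filter fun c => JJ X c = 0).image f, ?_, ?_, ?_⟩
  · exact Finset.card_image_le.trans ((Finset.card_filter_le _ _).trans h1)
  · intro c hc
    obtain ⟨c', hc', rfl⟩ := Finset.mem_image.1 hc
    rw [Finset.mem_filter] at hc'
    rw [hfv (h2 c' hc'.1)]
    exact hc'.2
  · intro c hc hJ
    obtain ⟨c', hc', z, hz, hcz⟩ := h3 c hc hJ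
    have hz0 : z ≠ 0 := by
      rintro rfl
      simp at hz
    have hJ' : JJ X c' = 0 := by
      rw [hcz, JJ_smul] at hJ
      have : (z ^ (d - 1)) ^ 2 ≠ 0 := by positivity
      exact (mul_eq_zero.1 hJ).resolve_left this
    refine ⟨f c', Finset.mem_image_of_mem _ (Finset.mem_filter.2 ⟨hc', hJ'⟩), z, hz, ?_⟩
    rw [hfv (h2 c' hc')]
    exact hcz

theorem wd_norm_comm (u v : ℂ × ℂ) : ‖wd u v‖ = ‖wd v u‖ := by
  have : wd u v = -wd v u := by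
    unfold wd
    ring
  rw [this, norm_neg]

theorem wd_phase {z : ℂ} (hz : ‖z‖ = 1) (u v : ℂ × ℂ) : ‖wd u (z • v)‖ = ‖wd u v‖ := by
  have : wd u (z • v) = z * wd u v := by
    unfold wd
    simp only [Prod.smul_fst, Prod.smul_snd, smul_eq_mul]
    ring
  rw [this, norm_mul, hz, one_mul]

theorem TT_step (X : CV d) (h : ND X) {e c : ℂ × ℂ} (he : n2 e ≤ 2) (hc : IsU c) (k : ℕ) :
    |TT e X c (k + 1) - TT e X c k| ≤ 2 * (Ph X c (k + 1))⁻¹ := by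
  by_cases h0 : Ph X c (k + 1) = 0
  · have : TT e X c (k + 1) = TT e X c k := by
      show (if Ph X c (k + 1) = 0 then TT e X c k else _) = _
      rw [if_pos h0]
    rw [this, h0]
    simp
  · have hs : Ph X c (k + 1) = Ph X c k * ‖al X c k‖ := by
      unfold Ph
      rw [Finset.prod_range_succ]
    have h1 : Ph X c k ≠ 0 := fun h => h0 (by rw [hs, h, zero_mul])
    have h2 : ‖al X c k‖ ≠ 0 := fun h => h0 (by rw [hs, h, mul_zero])
    have hP0 : 0 ≤ Ph X c (k + 1) := Finset.prod_nonneg fun _ _ => norm_nonneg _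
    have hP : 0 < Ph X c (k + 1) := lt_of_le_of_ne hP0 (Ne.symm h0)
    rw [TT_eq e X c h0, TT_eq e X c h1]
    have h3 : ‖om e X c k‖ / Ph X c k = ‖al X c k * om e X c k‖ / Ph X c (k + 1) := by
      rw [hs, norm_mul]
      field_simp
    rw [h3, ← sub_div, abs_div, abs_of_pos hP, div_eq_mul_inv]
    refine mul_le_mul_of_nonneg_right ?_ (inv_nonneg.2 hP0)
    refine (abs_norm_sub_norm_le _ _).trans ?_
    have h4 : om e X c (k + 1) - al X c k * om e X c k =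
        wd (ob X c (k + 1)) (Nd e (ob X c (k + 1))) := by
      show al X c k * om e X c k + _ - _ = _
      ring
    rw [h4]
    exact G55.wNd_le he (h.ob hc (k + 1))

/-- the Lipschitz property -/
def LipA (X : CV d) (e : ℂ × ℂ) (K ρ : ℝ) : Prop :=
  ∀ t ∈ ball (0 : ℂ) ρ, ∀ t' ∈ ball (0 : ℂ) ρ, ∀ x y : UU,
    |‖aa (Tt e t X) x.val‖ - ‖aa (Tt e t' X) y.val‖| ≤ K * (‖wd x.val y.val‖ + ‖t - t'‖)

/-- the basic properties -/
theorem bas_aux (h2 : 2 ≤ d) {M0 : ℝ} (hM0 : 0 < M0) {X : CV d} (hX : Rg M0 X) {e : ℂ × ℂ}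
    (he : n2 e ≤ 2) {C : Finset UU}
    (hC : ∀ c, IsU c → JJ X c = 0 → ∃ c' ∈ C, ∃ z : ℂ, ‖z‖ = 1 ∧ c = z • c'.val)
    {M K ρ : ℝ} (h16 : 16 ≤ M) (hMM : 2 * M0 ≤ M) (hdM : (d : ℝ) ≤ M) (hCM : (C.card : ℝ) ≤ M)
    (hK : M ^ 80 ≤ K) (hρ : 0 < ρ) (hρ8 : ρ ≤ 1 / 8) (hlip : LipA X e K ρ) :
    Bas (fd e X) C M K ρ := by
  have hd : 1 ≤ d := by omega
  have hnd := hX.nd hM0
  have hR : ∀ t ∈ ball (0 : ℂ) ρ, Rg M (Tt e t X) := by
    intro t ht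
    rw [mem_ball_zero_iff] at ht
    exact (hX.move hd hM0 he (ht.le.trans hρ8)).mono (by linarith) hMM
  refine
    { hM := h16
      hK := ?_
      hρ := hρ
      card := hCM
      a0 := fun t x => norm_nonneg _
      aM := fun t ht x => (hR t ht).up _ x.prop
      D0 := fun x y => norm_nonneg _
      Ds := ?_
      Dt := ?_
      lip := hlip
      near := ?_
      frz := ?_
      T0 := ?_
      Tt := ?_ }
  · exact (pow_le_pow_right₀ (by linarith) (by norm_num)).trans hK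
  · intro x y
    show ‖wd x.val y.val‖ = ‖wd y.val x.val‖
    rw [wd_norm_comm]
  · intro x y z
    show ‖wd x.val z.val‖ ≤ ‖wd x.val y.val‖ + ‖wd y.val z.val‖
    rw [wd_norm_comm y.val z.val]
    exact wd_tri x.prop y.prop z.prop
  · intro t ht x
    obtain ⟨c, h1, h3, h4⟩ := (hR t ht).crit _ x.prop
    rw [JJ_Tt] at h3
    obtain ⟨c', hc', z, hz, hcz⟩ := hC c h1 h3
    refine ⟨c', hc', ?_⟩
    show ‖wd x.val c'.val‖ ≤ M * ‖aa (Tt e t X) x.val‖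
    rw [hcz, wd_phase hz] at h4
    exact h4
  · intro t0 ht0 c _ k hk hpos hss t _ t' _ htk htk' l hl
    have hal := (pos_fd hnd e t0 c k).1 hpos
    rw [ss_fd hnd e t0 c k] at hss
    rw [lm_fd hnd e K t0 c k] at htk htk'
    obtain ⟨⟨f1, f2⟩, f3, f4, -, f5⟩ :=
      FR ((hR t0 ht0).hy h2 hdM (by linarith)) he c.prop hk hal hss hK hl htk
    have f6 := f5 _ htk'
    have e1 : Pool.H70.SF.Tt e (t - t0) (Pool.H70.SF.Tt e t0 X) = Pool.H70.SF.Tt e t X := by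
      rw [Tt_Tt, sub_add_cancel]
    have e2 : Pool.H70.SF.Tt e (t' - t0) (Pool.H70.SF.Tt e t0 X) = Pool.H70.SF.Tt e t' X := by
      rw [Tt_Tt, sub_add_cancel]
    have e3 : t - t0 - (t' - t0) = t - t' := by ring
    rw [e1] at f1 f2 f3 f4 f6
    rw [e2, e3] at f6
    have hP : 0 < Ph (Pool.H70.SF.Tt e t0 X) c.val l := G55.ph_pos _ hal hl
    have hP' : 0 < Ph (Pool.H70.SF.Tt e t X) c.val l := by linarith
    refine ⟨⟨?_, ?_⟩, ?_, ?_, ?_, ?_⟩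
    · rw [ph_fd hnd e t0 c l, ph_fd hnd e t c l]
      exact f1
    · rw [ph_fd hnd e t0 c l, ph_fd hnd e t c l]
      exact f2
    · intro hlk
      rw [a_fd hnd e t0 c l, a_fd hnd e t c l]
      exact f3 hlk
    · rw [T_fd e t c hP'.ne', T_fd e t0 c hP.ne']
      exact f4
    · rw [ph_fd hnd e t0 c l, T_fd e t0 c hP.ne']
      show _ ≤ 2 * ‖wd (orb (fd e X) t ((fd e X).F t c) l).val
        (orb (fd e X) t' ((fd e X).F t' c) l).val‖
      rw [orb_fd hnd e t c l, orb_fd hnd e t' c l]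
      have h1 := f6.1
      have h3 : ‖t - t'‖ * (‖om e (Pool.H70.SF.Tt e t0 X) c.val l‖ /
          Ph (Pool.H70.SF.Tt e t0 X) c.val l - 1 / (4 * M)) * Ph (Pool.H70.SF.Tt e t0 X) c.val l =
          ‖t - t'‖ * (‖om e (Pool.H70.SF.Tt e t0 X) c.val l‖ -
            Ph (Pool.H70.SF.Tt e t0 X) c.val l / (4 * M)) := by
        field_simp
      rw [h3]
      linarith
    · rw [ph_fd hnd e t0 c l, T_fd e t0 c hP.ne']
      show ‖wd (orb (fd e X) t ((fd e X).F t c) l).val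
        (orb (fd e X) t' ((fd e X).F t' c) l).val‖ ≤ _
      rw [orb_fd hnd e t c l, orb_fd hnd e t' c l]
      refine f6.2.trans (le_of_eq ?_)
      field_simp
  · intro t ht c _
    have h1 : IsU (ob (Pool.H70.SF.Tt e t X) c.val 0) := (ND_all hnd e t).ob c.prop 0
    exact ⟨norm_nonneg _, G55.wNd_le he h1⟩
  · intro t ht c _ k
    rw [ph_fd hnd e t c (k + 1)]
    exact TT_step _ (ND_all hnd e t) he c.prop k

/-- the Lipschitz property holds (helper55) -/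
theorem lipA (h2 : 2 ≤ d) {M0 : ℝ} (hM0 : 0 < M0) {X : CV d} (hX : Rg M0 X) {e : ℂ × ℂ}
    (he : n2 e ≤ 2) {M K ρ : ℝ} (h8 : 8 ≤ M) (hMM : 2 * M0 ≤ M) (hdM : (d : ℝ) ≤ M)
    (hK : M ^ 80 ≤ K) (hρ8 : ρ ≤ 1 / 8) : LipA X e K ρ := by
  have hH : ∀ t ∈ ball (0 : ℂ) ρ, G55.Hy M (Pool.H70.SF.Tt e t X) := by
    intro t ht
    rw [mem_ball_zero_iff] at ht
    exact ((hX.move (by omega) hM0 he (ht.le.trans hρ8)).mono (by linarith) hMM).hy h2 hdM h8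
  intro t ht t' ht' x y
  refine (G55.lip_all he (hH t ht) (hH t' ht') x.prop y.prop).trans ?_
  refine mul_le_mul_of_nonneg_right ?_ (by positivity)
  exact (pow_le_pow_right₀ (by linarith) (by norm_num)).trans hK

/-- **The basic properties of the family `t ↦ Tt e t X` near `t = 0`.** -/
theorem bas (h2 : 2 ≤ d) {M0 : ℝ} (hM0 : 0 < M0) {X : CV d} (hX : Rg M0 X) {e : ℂ × ℂ}
    (he : n2 e ≤ 2) {C : Finset UU}
    (hC : ∀ c, IsU c → JJ X c = 0 → ∃ c' ∈ C, ∃ z : ℂ, ‖z‖ = 1 ∧ c = z • c'.val)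
    {M K ρ : ℝ} (h16 : 16 ≤ M) (hMM : 2 * M0 ≤ M) (hdM : (d : ℝ) ≤ M) (hCM : (C.card : ℝ) ≤ M)
    (hK : M ^ 80 ≤ K) (hρ : 0 < ρ) (hρ8 : ρ ≤ 1 / 8) : Bas (fd e X) C M K ρ :=
  bas_aux h2 hM0 hX he hC h16 hMM hdM hCM hK hρ hρ8
    (lipA h2 hM0 hX he (by linarith) hMM hdM hK hρ8)

end Pool.H70.SF
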