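import Mathlib

/-!
Module LC: LOCAL COUNTING, abstract form (no sphere, no maps).

`x c k t`: orbit point at time `k` of the critical point `c` for the parameter `t`; `P`: derivative, `A`: spherical
derivative at the orbit point, `T`: norm of the normalised parameter derivative, `L`: inverse of the radius of
linearity, `Ev c k t`: the event. `Λ` is the dyadic scale. In a disc of radius `r ≤ 1/(4 Λ)` the parameters with an
event lie in `card C * card C * 4 Λ^η` sets of diameter at most `11 M Λ^(-γ-1+η) / τ0`.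

`grid`: from all small discs to a large disc.
-/

set_option autoImplicit false

open MeasureTheory Metric Set
open scoped ENNReal

namespace Pool.H70.SF

/-- a set with pairwise distances at most `δ` has area at most `π δ^2` -/
lemma vol_le_of_diam {A : Set ℂ} {δ : ℝ} (h : ∀ s ∈ A, ∀ t ∈ A, ‖s - t‖ ≤ δ) :
    volume A ≤ ENNReal.ofReal (Real.pi * δ ^ 2) := by
  rcases A.eq_empty_or_nonempty with h0 | ⟨s, hs⟩
  · rw [h0]
    simp
  · have hδ : 0 ≤ δ := (norm_nonneg _).trans (h s hs s hs)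
    have hsub : A ⊆ closedBall s δ := fun t ht => by
      rw [mem_closedBall, dist_eq_norm]
      exact h t ht s hs
    refine (measure_mono hsub).trans ?_
    rw [Complex.volume_closedBall, ENNReal.ofReal_mul Real.pi_pos.le, ENNReal.ofReal_pow hδ, mul_comm]
    refine le_of_eq ?_
    congr 1
    rw [ENNReal.ofReal, ← NNReal.coe_real_pi, Real.toNNReal_coe]

theorem local_count {ι X : Type*} [PseudoMetricSpace X] (C : Finset ι) (pt : ι → X)
    (x : ι → ℕ → ℂ → X) (P A T L : ι → ℕ → ℂ → ℝ) (Ev : ι → ℕ → ℂ → Prop)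
    {M τ0 r γ η Λ : ℝ} {Kmax : ℕ} (hM : 0 ≤ M) (hτ0 : 0 < τ0) (hΛ : 1 ≤ Λ) (hη0 : 0 ≤ η)
    (hη1 : η ≤ 1) (hγ : 0 ≤ γ)
    (hk : ∀ c ∈ C, ∀ k t, Ev c k t → k ≤ Kmax)
    (hP : ∀ c k t, 0 ≤ P c k t)
    (h1 : ∀ c ∈ C, ∀ k t, Ev c k t → Λ ≤ L c k t ∧ L c k t ≤ 2 * Λ)
    (h2 : ∀ c ∈ C, ∀ k t, Ev c k t → L c k t ^ (1 - η) ≤ P c k t)
    (h3 : ∀ c ∈ C, ∀ k t, Ev c k t → A c k t ≤ L c k t ^ (-γ))
    (h4 : ∀ c ∈ C, ∀ k t, Ev c k t → τ0 ≤ T c k t)
    (h5 : ∀ c ∈ C, ∀ k t, Ev c k t → ∃ c' ∈ C, dist (x c k t) (pt c') ≤ M * A c k t)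
    (h6 : ∀ c ∈ C, ∀ k t, Ev c k t → ∑ l ∈ Finset.range k, P c l t ≤ L c k t)
    (frz : ∀ c ∈ C, ∀ k t, Ev c k t → ∀ t', ‖t' - t‖ * L c k t ≤ 1 → ∀ l ≤ k,
      P c l t' ≤ 4 / 3 * P c l t ∧ T c l t' - τ0 / 4 ≤ T c l t ∧
      ∀ t'', ‖t'' - t‖ * L c k t ≤ 1 →
        ‖t' - t''‖ * ((T c l t - τ0 / 4) * P c l t / 2) ≤ dist (x c l t') (x c l t''))
    (t0 : ℂ) (hr : 4 * Λ * r ≤ 1) :
    volume {t | t ∈ closedBall t0 r ∧ ∃ c ∈ C, ∃ k, Ev c k t} ≤
      ENNReal.ofReal (C.card * C.card * (4 * Λ ^ η) *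
        (Real.pi * (11 * M * Λ ^ (-γ - 1 + η) / τ0) ^ 2)) := by
  classical
  have hΛ0 : 0 < Λ := lt_of_lt_of_le one_pos hΛ
  set δ : ℝ := 11 * M * Λ ^ (-γ - 1 + η) / τ0 with hδ
  have hδ0 : 0 ≤ δ := by positivity
  -- the sets for one critical point
  set Tc : ι → Set ℂ := fun c => {t | t ∈ closedBall t0 r ∧ ∃ k, Ev c k t} with hTc
  have hsub : {t | t ∈ closedBall t0 r ∧ ∃ c ∈ C, ∃ k, Ev c k t} ⊆ ⋃ c ∈ C, Tc c := by
    rintro t ⟨ht, c, hc, k, hev⟩
    simp only [mem_iUnion]
    exact ⟨c, hc, ht, k, hev⟩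
  have hone : ∀ c ∈ C, volume (Tc c) ≤
      ENNReal.ofReal ((4 * Λ ^ η) * (C.card * (Real.pi * δ ^ 2))) := by
    intro c hc
    by_cases hne : ∃ k t, t ∈ closedBall t0 r ∧ Ev c k t
    · -- the largest time
      have hex : ∃ k, (∃ t, t ∈ closedBall t0 r ∧ Ev c k t) ∧
          ∀ k', (∃ t, t ∈ closedBall t0 r ∧ Ev c k' t) → k' ≤ k := by
        have hfin : {k | ∃ t, t ∈ closedBall t0 r ∧ Ev c k t}.Finite :=
          (Set.finite_le_nat Kmax).subset fun k ⟨t, _, hev⟩ => hk c hc k t hev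
        obtain ⟨k0, t1, h01, h02⟩ := hne
        obtain ⟨k, hk1, hk2⟩ := hfin.exists_maximalFor id _ ⟨k0, t1, h01, h02⟩
        refine ⟨k, hk1, fun k' hk' => ?_⟩
        by_contra hlt
        push Not at hlt
        exact absurd (hk2 hk' hlt.le) (by simpa using hlt)
      obtain ⟨ks, ⟨ts, hts, hes⟩, hmax⟩ := hex
      have hLs := h1 c hc ks ts hes
      -- the admissible times
      set KK : Finset ℕ := (Finset.range (ks + 1)).filter
        (fun k => 3 / 4 * Λ ^ (1 - η) ≤ P c k ts) with hKK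
      have hPow : ∀ k t, Ev c k t → Λ ^ (1 - η) ≤ P c k t := fun k t hev =>
        (Real.rpow_le_rpow hΛ0.le (h1 c hc k t hev).1 (by linarith)).trans (h2 c hc k t hev)
      have hclose : ∀ t ∈ closedBall t0 r, ‖t - ts‖ * L c ks ts ≤ 1 := by
        intro t ht
        have h7 : ‖t - ts‖ ≤ 2 * r := by
          rw [← dist_eq_norm]
          calc dist t ts ≤ dist t t0 + dist ts t0 := dist_triangle_right _ _ _
            _ ≤ r + r := add_le_add (mem_closedBall.1 ht) (mem_closedBall.1 hts)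
            _ = 2 * r := by ring
        have h8 : 0 ≤ L c ks ts := by linarith [hLs.1]
        calc ‖t - ts‖ * L c ks ts ≤ (2 * r) * (2 * Λ) :=
              mul_le_mul h7 hLs.2 h8 ((norm_nonneg _).trans h7)
          _ = 4 * Λ * r := by ring
          _ ≤ 1 := hr
      have hkey : ∀ t ∈ closedBall t0 r, ∀ k, Ev c k t → k ∈ KK := by
        intro t ht k hev
        have hkk : k ≤ ks := hmax k ⟨t, ht, hev⟩
        have hf := frz c hc ks ts hes t (hclose t ht) k hkk
        rw [hKK, Finset.mem_filter, Finset.mem_range]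
        refine ⟨by omega, ?_⟩
        have h9 := hPow k t hev
        linarith [hf.1]
      have hcardK : (KK.card : ℝ) ≤ 4 * Λ ^ η := by
        have hpos : 0 < 3 / 4 * Λ ^ (1 - η) := by positivity
        have hsum1 : ∑ k ∈ KK.erase ks, (3 / 4 * Λ ^ (1 - η)) ≤ ∑ k ∈ Finset.range ks, P c k ts := by
          calc ∑ k ∈ KK.erase ks, (3 / 4 * Λ ^ (1 - η)) ≤ ∑ k ∈ KK.erase ks, P c k ts := by
                refine Finset.sum_le_sum fun k hk' => ?_
                have := (Finset.mem_filter.1 (Finset.mem_of_mem_erase hk')).2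
                exact this
            _ ≤ ∑ k ∈ Finset.range ks, P c k ts := by
                refine Finset.sum_le_sum_of_subset_of_nonneg ?_ fun k _ _ => hP c k ts
                intro k hk'
                have h10 := Finset.ne_of_mem_erase hk'
                have h11 := (Finset.mem_filter.1 (Finset.mem_of_mem_erase hk')).1
                rw [Finset.mem_range] at *
                omega
        rw [Finset.sum_const, nsmul_eq_mul] at hsum1
        have h12 : ((KK.erase ks).card : ℝ) * (3 / 4 * Λ ^ (1 - η)) ≤ 2 * Λ :=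
          hsum1.trans ((h6 c hc ks ts hes).trans hLs.2)
        have h13 : (KK.card : ℝ) ≤ (KK.erase ks).card + 1 := by
          have := Finset.pred_card_le_card_erase (a := ks) (s := KK)
          have h14 : KK.card ≤ (KK.erase ks).card + 1 := by omega
          exact_mod_cast h14
        have h15 : Λ = Λ ^ (1 - η) * Λ ^ η := by
          rw [← Real.rpow_add hΛ0]
          simp
        have h16 : ((KK.erase ks).card : ℝ) ≤ 8 / 3 * Λ ^ η := by
          have h17 : ((KK.erase ks).card : ℝ) * (3 / 4 * Λ ^ (1 - η)) ≤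
              (8 / 3 * Λ ^ η) * (3 / 4 * Λ ^ (1 - η)) := by
            calc ((KK.erase ks).card : ℝ) * (3 / 4 * Λ ^ (1 - η)) ≤ 2 * Λ := h12
              _ = 2 * (Λ ^ (1 - η) * Λ ^ η) := by rw [← h15]
              _ = (8 / 3 * Λ ^ η) * (3 / 4 * Λ ^ (1 - η)) := by ring
          exact le_of_mul_le_mul_right h17 hpos
        have h18 : (1 : ℝ) ≤ Λ ^ η := Real.one_le_rpow hΛ hη0
        linarith
      -- the small sets
      set Sm : ℕ → ι → Set ℂ := fun k c' => {t | t ∈ closedBall t0 r ∧ Ev c k t ∧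
        dist (x c k t) (pt c') ≤ M * A c k t} with hSm
      have hcov : Tc c ⊆ ⋃ k ∈ KK, ⋃ c' ∈ C, Sm k c' := by
        rintro t ⟨ht, k, hev⟩
        obtain ⟨c', hc', hd⟩ := h5 c hc k t hev
        simp only [mem_iUnion]
        exact ⟨k, hkey t ht k hev, c', hc', ht, hev, hd⟩
      have hsm : ∀ k ∈ KK, ∀ c' ∈ C, volume (Sm k c') ≤ ENNReal.ofReal (Real.pi * δ ^ 2) := by
        intro k hkK c' _
        have hkks : k ≤ ks := by
          have := (Finset.mem_filter.1 hkK).1
          rw [Finset.mem_range] at this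
          omega
        refine vol_le_of_diam fun s hs t ht => ?_
        obtain ⟨hs1, hs2, hs3⟩ := hs
        obtain ⟨ht1, ht2, ht3⟩ := ht
        have hf := frz c hc ks ts hes s (hclose s hs1) k hkks
        have hf3 := hf.2.2 t (hclose t ht1)
        have hA : ∀ t, Ev c k t → A c k t ≤ Λ ^ (-γ) := fun t hev =>
          (h3 c hc k t hev).trans
            (Real.rpow_le_rpow_of_nonpos hΛ0 (h1 c hc k t hev).1 (by linarith))
        have hdist : dist (x c k s) (x c k t) ≤ 2 * M * Λ ^ (-γ) := by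
          calc dist (x c k s) (x c k t) ≤ dist (x c k s) (pt c') + dist (x c k t) (pt c') :=
                dist_triangle_right _ _ _
            _ ≤ M * Λ ^ (-γ) + M * Λ ^ (-γ) := by
                refine add_le_add (hs3.trans ?_) (ht3.trans ?_)
                · exact mul_le_mul_of_nonneg_left (hA s hs2) hM
                · exact mul_le_mul_of_nonneg_left (hA t ht2) hM
            _ = 2 * M * Λ ^ (-γ) := by ring
        have hT : τ0 / 2 ≤ T c k ts - τ0 / 4 := by
          have := h4 c hc k s hs2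
          linarith [hf.2.1]
        have hPk : 3 / 4 * Λ ^ (1 - η) ≤ P c k ts := (Finset.mem_filter.1 hkK).2
        have hprod : 3 / 16 * τ0 * Λ ^ (1 - η) ≤ (T c k ts - τ0 / 4) * P c k ts / 2 := by
          have h19 : τ0 / 2 * (3 / 4 * Λ ^ (1 - η)) ≤ (T c k ts - τ0 / 4) * P c k ts :=
            mul_le_mul hT hPk (by positivity) (by linarith)
          linarith
        have h20 : ‖s - t‖ * (3 / 16 * τ0 * Λ ^ (1 - η)) ≤ 2 * M * Λ ^ (-γ) :=
          (mul_le_mul_of_nonneg_left hprod (norm_nonneg _)).trans (hf3.trans hdist)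
        have hpos : 0 < 3 / 16 * τ0 * Λ ^ (1 - η) := by positivity
        have h21 : ‖s - t‖ ≤ 2 * M * Λ ^ (-γ) / (3 / 16 * τ0 * Λ ^ (1 - η)) := by
          rw [le_div_iff₀ hpos]
          exact h20
        refine h21.trans ?_
        have h22 : Λ ^ (-γ - 1 + η) = Λ ^ (-γ) / Λ ^ (1 - η) := by
          rw [← Real.rpow_sub hΛ0]
          congr 1
          ring
        rw [hδ, h22]
        have hq : 0 < Λ ^ (1 - η) := by positivity
        have h23 : 2 * M * Λ ^ (-γ) / (3 / 16 * τ0 * Λ ^ (1 - η)) =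
            (32 / 3) * (M * (Λ ^ (-γ) / Λ ^ (1 - η)) / τ0) := by
          field_simp
          ring
        have h24 : 11 * M * (Λ ^ (-γ) / Λ ^ (1 - η)) / τ0 =
            11 * (M * (Λ ^ (-γ) / Λ ^ (1 - η)) / τ0) := by ring
        rw [h23, h24]
        have h25 : 0 ≤ M * (Λ ^ (-γ) / Λ ^ (1 - η)) / τ0 := by positivity
        linarith
      calc volume (Tc c) ≤ volume (⋃ k ∈ KK, ⋃ c' ∈ C, Sm k c') := measure_mono hcov
        _ ≤ ∑ k ∈ KK, volume (⋃ c' ∈ C, Sm k c') := measure_biUnion_finset_le _ _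
        _ ≤ ∑ k ∈ KK, ∑ c' ∈ C, volume (Sm k c') :=
            Finset.sum_le_sum fun k _ => measure_biUnion_finset_le _ _
        _ ≤ ∑ k ∈ KK, ∑ c' ∈ C, ENNReal.ofReal (Real.pi * δ ^ 2) :=
            Finset.sum_le_sum fun k hkK => Finset.sum_le_sum fun c' hc' => hsm k hkK c' hc'
        _ = ENNReal.ofReal (KK.card * (C.card * (Real.pi * δ ^ 2))) := by
            have e : ∀ (n : ℕ) (y : ℝ), ENNReal.ofReal (n * y) = n * ENNReal.ofReal y :=
              fun n y => by rw [ENNReal.ofReal_mul (Nat.cast_nonneg n), ENNReal.ofReal_natCast]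
            rw [Finset.sum_const, Finset.sum_const, nsmul_eq_mul, nsmul_eq_mul, e, e]
        _ ≤ ENNReal.ofReal ((4 * Λ ^ η) * (C.card * (Real.pi * δ ^ 2))) := by
            refine ENNReal.ofReal_le_ofReal ?_
            exact mul_le_mul_of_nonneg_right hcardK (by positivity)
    · have : Tc c = ∅ := by
        rw [Set.eq_empty_iff_forall_notMem]
        rintro t ⟨ht, k, hev⟩
        exact hne ⟨k, t, ht, hev⟩
      rw [this]
      simp
  calc volume {t | t ∈ closedBall t0 r ∧ ∃ c ∈ C, ∃ k, Ev c k t}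
      ≤ volume (⋃ c ∈ C, Tc c) := measure_mono hsub
    _ ≤ ∑ c ∈ C, volume (Tc c) := measure_biUnion_finset_le _ _
    _ ≤ ∑ c ∈ C, ENNReal.ofReal ((4 * Λ ^ η) * (C.card * (Real.pi * δ ^ 2))) :=
        Finset.sum_le_sum hone
    _ = ENNReal.ofReal (C.card * C.card * (4 * Λ ^ η) * (Real.pi * δ ^ 2)) := by
        rw [Finset.sum_const, nsmul_eq_mul, ← ENNReal.ofReal_natCast,
          ← ENNReal.ofReal_mul (by positivity)]
        congr 1
        ring

end Pool.H70.SF
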